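import Pool.Agent.Q279.FL.Even

/-!
# The primes above `p` which do not divide `x y z` are balanced, for every solution
-/

set_option autoImplicit false

namespace Pool.Agent.Q279.FL

open NumberField IsDedekindDomain Polynomial Pool.Agent.Y546.WQ Pool.Agent.Q264.FB

section

variable {p : ℕ} [Fact p.Prime] {K N : Type} [Field K] [NumberField K] [Field N] [NumberField N]

theorem wiefL (hmp : Module.finrank ℚ K < p) (hp2 : p ≠ 2) (hW : ¬ p ^ 2 ∣ 2 ^ (p - 1) - 1)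
    (P : Ideal (𝓞 K)) (hP : P.IsPrime) (hpP : ((p : ℕ) : 𝓞 K) ∈ P)
    {X Y Z : 𝓞 K} (heq : X ^ p + Y ^ p + Z ^ p = 0) (hXP : X ∉ P) (hXY : X - Y ∈ P) :
    False := by
  have hpp : p.Prime := Fact.out
  have hodd : Odd p := hpp.odd_of_ne_two hp2
  obtain ⟨n, hnm, hn1, hn2⟩ := exists_ram P hP hpP
  have h1 := lin_p hpp P hP hpP heq
  have h2 : Z - (-2 * X) ∈ P := by
    have : Z - (-2 * X) = (X + Y + Z) + (X - Y) := by ring
    rw [this]
    exact P.add_mem h1 hXY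
  have h3 := pow_sub_pow_mem hpp P hn1 (by omega) hXY
  have h4 := pow_sub_pow_mem hpp P hn1 (by omega) h2
  have h5 : X ^ p * (2 ^ p - 2) ∈ P ^ (n + 1) := by
    have e : X ^ p * (2 ^ p - 2) = (Z ^ p - (-2 * X) ^ p) - (X ^ p - Y ^ p) := by
      have e1 : (-2 * X) ^ p = -(2 ^ p * X ^ p) := by
        rw [neg_mul, hodd.neg_pow, mul_pow]
      rw [e1]
      linear_combination -heq
    rw [e]
    exact (P ^ (n + 1)).sub_mem h4 h3
  have h6 : (2 : 𝓞 K) ^ p - 2 ∈ P ^ (n + 1) := by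
    rcases Ideal.IsPrime.mul_mem_pow P h5 with h | h
    · exact absurd (hP.mem_of_pow_mem p h) hXP
    · exact h
  -- the Fermat quotient
  have h7 : p ∣ 2 ^ (p - 1) - 1 := by
    have h8 : ((2 ^ (p - 1) - 1 : ℕ) : ZMod p) = 0 := by
      rw [Nat.cast_sub Nat.one_le_two_pow]
      push_cast
      rw [ZMod.pow_card_sub_one_eq_one, sub_self]
      have h : ((2 : ℕ) : ZMod p) ≠ 0 := by
        rw [Ne, ZMod.natCast_eq_zero_iff]
        intro hd
        exact hp2 ((Nat.prime_dvd_prime_iff_eq hpp Nat.prime_two).1 hd)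
      exact_mod_cast h
    exact (ZMod.natCast_eq_zero_iff _ _).1 h8
  obtain ⟨v, hv⟩ := h7
  have h8 : ((2 * v : ℕ) : 𝓞 K) * (p : 𝓞 K) ∈ P ^ (n + 1) := by
    have e : ((2 * v : ℕ) : 𝓞 K) * (p : 𝓞 K) = 2 ^ p - 2 := by
      have e1 : 2 * v * p = 2 ^ p - 2 := by
        have e2 : 2 ^ p = 2 * 2 ^ (p - 1) := by
          rw [← pow_succ']
          congr 1
          have := hpp.pos
          omega
        rw [e2, mul_assoc, mul_comm v p, ← hv, Nat.mul_sub]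
      have e3 := congrArg (fun w : ℕ => (w : 𝓞 K)) e1
      have e4 : 2 ≤ 2 ^ p := by
        calc 2 = 2 ^ 1 := by norm_num
          _ ≤ 2 ^ p := Nat.pow_le_pow_right (by norm_num) hpp.one_lt.le
      simp only [Nat.cast_mul] at e3
      rw [Nat.cast_sub e4] at e3
      push_cast at e3 ⊢
      exact e3
    rw [e]
    exact h6
  rcases Ideal.IsPrime.mul_mem_pow P h8 with h | h
  · have h9 := int_notMem P hP p hpp hpP (2 * v : ℕ) (by
      intro hd
      have hd' : p ∣ 2 * v := by exact_mod_cast hd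
      rcases (Nat.Prime.dvd_mul hpp).1 hd' with h' | h'
      · exact hp2 ((Nat.prime_dvd_prime_iff_eq hpp Nat.prime_two).1 h')
      · apply hW
        rw [hv, pow_two]
        exact Nat.mul_dvd_mul_left p h')
    exact h9 (by exact_mod_cast h)
  · exact hn2 h


end

section

variable {p : ℕ} [Fact p.Prime] {k F : Type} [Field k] [Finite k] [Algebra (ZMod p) k]
  [Field F] [Algebra (ZMod p) F] [IsAlgClosed F] [Algebra.IsAlgebraic (ZMod p) F]

/-- the alternatives for the size of a family -/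
theorem fam_cases3 (h5 : 5 ≤ p) (ι : k →+* F) (x : Fin 3 → k) (hx : ∀ i, x i ≠ 0)
    (hs : x 0 + x 1 + x 2 = 0) (f : ℕ) (hf : Module.finrank (ZMod p) k = f) :
    ((fam (cls (p := p) fun i => ι (x i))).card = 1 ∧ p % 3 = 2 ∧
      ∃ m : k, m ^ 2 + m + 1 = 0 ∧ x 1 = m * x 0 ∧ x 2 = m ^ 2 * x 0) ∨
    ((fam (cls (p := p) fun i => ι (x i))).card = 2 ∧ (3 ∣ f ∨ (p % 3 = 1 ∧
      ∃ m : k, m ^ 2 + m + 1 = 0 ∧ x 1 = m * x 0 ∧ x 2 = m ^ 2 * x 0))) ∨
    ((fam (cls (p := p) fun i => ι (x i))).card = 3 ∧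
      (Even f ∨ ∃ i j : Fin 3, i ≠ j ∧ x i = x j)) ∨
    (fam (cls (p := p) fun i => ι (x i))).card = 6 := by
  classical
  set c := cls (p := p) fun i => ι (x i) with hc
  have hfc := fam_card c
  have hpp : p.Prime := Fact.out
  have hp3 : p % 3 = 1 ∨ p % 3 = 2 := by
    have : ¬ 3 ∣ p := by
      intro hd
      have := (Nat.prime_dvd_prime_iff_eq Nat.prime_three hpp).1 hd
      omega
    omega
  have hH : ∀ σ : G3, σ ∈ MulAction.stabilizer G3 c → Hs p x σ := fun σ hσ =>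
    hs_of_smul ι x hx σ hσ
  set n := Nat.card (MulAction.stabilizer G3 c) with hn
  have hn6 : n ∣ 6 := Dvd.intro_left _ hfc
  have hn0 : n ∈ ({1, 2, 3, 6} : Finset ℕ) := by
    have : n ∈ Nat.divisors 6 := Nat.mem_divisors.2 ⟨hn6, by norm_num⟩
    have e : Nat.divisors 6 = {1, 2, 3, 6} := by decide
    rwa [e] at this
  have hord : ∀ q : ℕ, q.Prime → q ∣ n → ∃ σ ∈ MulAction.stabilizer G3 c, orderOf σ = q := by
    intro q hq hqn
    have : Fact q.Prime := ⟨hq⟩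
    obtain ⟨σ, hσ⟩ := exists_prime_orderOf_dvd_card' q hqn
    exact ⟨σ, σ.2, by rw [← hσ, Subgroup.orderOf_coe]⟩
  have hdvd : ∀ σ ∈ MulAction.stabilizer G3 c, orderOf σ ∣ n := by
    intro σ hσ
    have := orderOf_dvd_natCard (⟨σ, hσ⟩ : MulAction.stabilizer G3 c)
    rwa [← Subgroup.orderOf_coe] at this
  have hsw : orderOf (Equiv.swap 1 2 : G3) = 2 :=
    orderOf_eq_prime (by decide) (by decide)
  simp only [Finset.mem_insert, Finset.mem_singleton] at hn0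
  rcases hn0 with h | h | h | h
  · right; right; right
    rw [h] at hfc
    omega
  · -- a transposition
    right; right; left
    rw [h] at hfc
    refine ⟨by omega, ?_⟩
    by_cases hev : Even f
    · exact Or.inl hev
    right
    obtain ⟨σ, hσ, hσ2⟩ := hord 2 Nat.prime_two (by rw [h])
    have hcas : σ = Equiv.swap 0 1 ∨ σ = Equiv.swap 1 2 ∨ σ = Equiv.swap 0 2 := by
      have h1 : σ ^ 2 = 1 := by
        have := pow_orderOf_eq_one σ
        rwa [hσ2] at this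
      have h2 : σ ≠ 1 := by
        rintro rfl
        rw [orderOf_one] at hσ2
        norm_num at hσ2
      clear hσ hσ2
      revert σ
      decide
    have hodd : Odd (Module.finrank (ZMod p) k) := by
      rw [hf]
      exact Nat.not_even_iff_odd.1 hev
    have hHσ := hH σ hσ
    rcases hcas with rfl | rfl | rfl
    · exact ⟨0, 1, by decide, hs_swap hx (m := 2) (by decide) (by decide) hHσ hodd⟩
    · exact ⟨1, 2, by decide, hs_swap hx (m := 0) (by decide) (by decide) hHσ hodd⟩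
    · exact ⟨0, 2, by decide, hs_swap hx (m := 1) (by decide) (by decide) hHσ hodd⟩
  · -- a three cycle
    right; left
    rw [h] at hfc
    refine ⟨by omega, ?_⟩
    by_cases h3 : 3 ∣ f
    · exact Or.inl h3
    obtain ⟨σ, hσ, hσ3⟩ := hord 3 Nat.prime_three (by rw [h])
    obtain ⟨m, hm, hm1, hm2⟩ := hs_cycle hx hs hσ3 (hH σ hσ) (by rwa [hf])
    rcases hp3 with hp | hp
    · exact Or.inr ⟨hp, m, hm, hm1, hm2⟩
    exfalso
    have h6 : (Equiv.swap 1 2 : G3) ∈ MulAction.stabilizer G3 c :=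
      om_class hp ι x hx m hm hm1 hm2
    have h7 := hdvd _ h6
    rw [hsw, h] at h7
    norm_num at h7
  · -- everything
    left
    have hfc' : (fam c).card * 6 = 6 := by
      rw [h] at hfc
      exact hfc
    refine ⟨by omega, ?_⟩
    have htop : MulAction.stabilizer G3 c = ⊤ := by
      apply Subgroup.eq_top_of_card_eq
      rw [← hn, h, Nat.card_eq_fintype_card]
      decide
    have hall : ∀ σ : G3, Hs p x σ := fun σ => hH σ (by rw [htop]; trivial)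
    obtain ⟨m, hm, hm1, hm2⟩ := hs_all hx hs (hall _) (hall _)
    rcases hp3 with hp | hp
    · exact (om_swap h5 hp hx (hall _) m hm hm1 hm2).elim
    · exact ⟨hp, m, hm, hm1, hm2⟩


/-- a cube root of unity which is a power -/
theorem root_pow (h5 : 5 ≤ p) (e l : ℕ) (r m : k) (hr : r ≠ 0) (hm : m ^ 2 + m + 1 = 0)
    (h : r ^ (3 ^ e * l) = m) : 3 ^ (e + 1) ∣ Nat.card k - 1 := by
  have hm3 : m ^ 3 = 1 := by linear_combination (m - 1) * hm
  have hm1 : m ≠ 1 := by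
    rintro rfl
    apply three_ne (p := p) h5 (k := k)
    linear_combination hm
  have : Fact (Nat.Prime 3) := ⟨Nat.prime_three⟩
  have h1 : orderOf (r ^ l) = 3 ^ (e + 1) := by
    apply orderOf_eq_prime_pow
    · rw [← pow_mul, mul_comm l, h]
      exact hm1
    · rw [← pow_mul, pow_succ, mul_comm l, show 3 ^ e * 3 * l = 3 ^ e * l * 3 by ring, pow_mul, h,
        hm3]
  rw [← h1]
  let _ : Fintype k := Fintype.ofFinite k
  rw [Nat.card_eq_fintype_card]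
  exact orderOf_dvd_of_pow_eq_one (FiniteField.pow_card_sub_one_eq_one _ (pow_ne_zero _ hr))

end

/-- the alternatives for the families -/
def Alt (p e : ℕ) {K : Type} [Field K] [NumberField K] (v : HeightOneSpectrum (𝓞 K))
    (n : ℕ) : Prop :=
  (n = 1 ∧ p % 3 = 2 ∧ 3 ^ (e + 1) ∣ Nat.card (𝓞 K ⧸ v.asIdeal) - 1) ∨
    (n = 2 ∧ (3 ∣ v.asIdeal.inertiaDeg ℤ ∨
      (p % 3 = 1 ∧ 3 ^ (e + 1) ∣ Nat.card (𝓞 K ⧸ v.asIdeal) - 1))) ∨
    (n = 3 ∧ (p ^ 2 ∣ 2 ^ (p - 1) - 1 ∨ Even (v.asIdeal.inertiaDeg ℤ))) ∨ n = 6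

section

variable {p : ℕ} [Fact p.Prime] {K N F : Type} [Field K] [NumberField K] [Field N]
  [NumberField N] [Field F]

omit [NumberField N] in
/-- the residues at a prime above `p` -/
theorem local_dataG (hmp : Module.finrank ℚ K < p) (hp2 : p ≠ 2) (h5 : 5 ≤ p) (Q : Ideal (𝓞 N))
    (ψ : 𝓞 N →+* F) (hψ : ∀ w : 𝓞 N, ψ w = 0 ↔ w ∈ Q) {X Y Z X₀ Y₀ : 𝓞 K}
    (heq : X ^ p + Y ^ p + Z ^ p = 0) (e l : ℕ) (hX : X = X₀ ^ (3 ^ e * l))
    (hY : Y = Y₀ ^ (3 ^ e * l)) (hel : 3 ^ e * l ≠ 0)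
    (v : HeightOneSpectrum (𝓞 K)) (hv : ((p : ℕ) : 𝓞 K) ∈ v.asIdeal)
    (hcp : X ∉ v.asIdeal ∧ Y ∉ v.asIdeal ∧ Z ∉ v.asIdeal) :
    ∃ (k : Type) (_ : Field k) (_ : Finite k) (_ : Algebra (ZMod p) k) (x : Fin 3 → k),
      (∀ i, x i ≠ 0) ∧ x 0 + x 1 + x 2 = 0 ∧
      Module.finrank (ZMod p) k = v.asIdeal.inertiaDeg ℤ ∧
      Nat.card k = p ^ v.asIdeal.inertiaDeg ℤ ∧
      (∀ i j, i ≠ j → x i = x j → p ^ 2 ∣ 2 ^ (p - 1) - 1) ∧
      ((∃ m : k, m ^ 2 + m + 1 = 0 ∧ x 1 = m * x 0 ∧ x 2 = m ^ 2 * x 0) →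
        3 ^ (e + 1) ∣ Nat.card (𝓞 K ⧸ v.asIdeal) - 1) ∧
      ∀ τ : K →+* N, Q.comap (RingOfIntegers.mapRingHom τ) = v.asIdeal →
        ∃ ι : k →+* F, ∀ i, resid ψ X Y Z τ i = ι (x i) := by
  classical
  have hpp : p.Prime := Fact.out
  have hPm : v.asIdeal.IsMaximal := v.isPrime.isMaximal v.ne_bot
  let _ : Field (𝓞 K ⧸ v.asIdeal) := Ideal.Quotient.field v.asIdeal
  have hfin : Finite (𝓞 K ⧸ v.asIdeal) := Ideal.finiteQuotientOfFreeOfNeBot v.asIdeal v.ne_bot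
  have hchP : CharP (𝓞 K ⧸ v.asIdeal) p := charP_quot v.asIdeal v.isPrime p hpp hv
  let _ : Algebra (ZMod p) (𝓞 K ⧸ v.asIdeal) := ZMod.algebra _ p
  have hcard : Nat.card (𝓞 K ⧸ v.asIdeal) = p ^ v.asIdeal.inertiaDeg ℤ := by
    rw [← absNorm_eq hpp v hv, Ideal.absNorm_apply, Submodule.cardQuot_apply]
  have hcard2 : Nat.card (𝓞 K ⧸ v.asIdeal) =
      p ^ Module.finrank (ZMod p) (𝓞 K ⧸ v.asIdeal) := by
    have := Module.natCard_eq_pow_finrank (K := ZMod p) (V := 𝓞 K ⧸ v.asIdeal)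
    rwa [Nat.card_zmod] at this
  obtain ⟨c1, c2, c3⟩ := hcp
  have hnz : ∀ w : 𝓞 K, w ∉ v.asIdeal → Ideal.Quotient.mk v.asIdeal w ≠ 0 := fun w hw h =>
    hw (Ideal.Quotient.eq_zero_iff_mem.1 h)
  refine ⟨𝓞 K ⧸ v.asIdeal, inferInstance, hfin, inferInstance,
    ![Ideal.Quotient.mk v.asIdeal X, Ideal.Quotient.mk v.asIdeal Y,
      Ideal.Quotient.mk v.asIdeal Z], ?_, ?_, ?_, hcard, ?_, ?_, ?_⟩
  · intro i
    rcases fin3a i with rfl | rfl | rfl
    · exact hnz X c1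
    · exact hnz Y c2
    · exact hnz Z c3
  · change Ideal.Quotient.mk v.asIdeal X + Ideal.Quotient.mk v.asIdeal Y +
      Ideal.Quotient.mk v.asIdeal Z = 0
    rw [← map_add, ← map_add]
    exact Ideal.Quotient.eq_zero_iff_mem.2 (lin_p hpp v.asIdeal v.isPrime hv heq)
  · apply Nat.pow_right_injective hpp.two_le
    exact hcard2.symm.trans hcard
  · intro i j hij hxy
    by_contra hW
    have w01 : ∀ X Y Z : 𝓞 K, X ^ p + Y ^ p + Z ^ p = 0 → X ∉ v.asIdeal →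
        Ideal.Quotient.mk v.asIdeal X = Ideal.Quotient.mk v.asIdeal Y → False :=
      fun X Y Z he hX h =>
      wiefL hmp hp2 hW v.asIdeal v.isPrime hv he hX (Ideal.Quotient.eq.1 h)
    have h01 := w01 X Y Z heq c1
    have h12 := w01 Y Z X (by rw [← heq]; ring) c2
    have h20 := w01 Z X Y (by rw [← heq]; ring) c3
    rcases fin3a i with rfl | rfl | rfl <;>
    rcases fin3a j with rfl | rfl | rfl
    · exact hij rfl
    · exact h01 hxy
    · exact h20 hxy.symm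
    · exact h01 hxy.symm
    · exact hij rfl
    · exact h12 hxy
    · exact h20 hxy
    · exact h12 hxy.symm
    · exact hij rfl
  · rintro ⟨m, hm, hm1, hm2⟩
    have d1 : X₀ ∉ v.asIdeal := fun h => c1 (by rw [hX]; exact v.asIdeal.pow_mem_of_mem h _ (Nat.pos_of_ne_zero hel))
    have d2 : Y₀ ∉ v.asIdeal := fun h => c2 (by rw [hY]; exact v.asIdeal.pow_mem_of_mem h _ (Nat.pos_of_ne_zero hel))
    change Ideal.Quotient.mk v.asIdeal Y = m * Ideal.Quotient.mk v.asIdeal X at hm1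
    refine root_pow (p := p) h5 e l (Ideal.Quotient.mk v.asIdeal Y₀ / Ideal.Quotient.mk v.asIdeal X₀) m
      (div_ne_zero (hnz _ d2) (hnz _ d1)) hm ?_
    rw [div_pow, ← map_pow, ← map_pow, ← hX, ← hY, hm1, mul_div_assoc, div_self (hnz _ c1), mul_one]
  · intro τ hτ
    have hker : ∀ a : 𝓞 K, a ∈ v.asIdeal → (ψ.comp (RingOfIntegers.mapRingHom τ)) a = 0 := by
      intro a ha
      rw [RingHom.comp_apply, hψ]
      rw [← hτ] at ha
      exact ha
    refine ⟨Ideal.Quotient.lift v.asIdeal (ψ.comp (RingOfIntegers.mapRingHom τ)) hker, fun i => ?_⟩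
    rcases fin3a i with rfl | rfl | rfl
    · rfl
    · rfl
    · rfl

end

open Classical in
/-- the balanced structure -/
theorem mainBal {K : Type} [Field K] [NumberField K] {p : ℕ} (hp : p.Prime)
    (hreg : RegC p (Module.finrank ℚ K)) (e l : ℕ) (hl : 0 < l)
    {x y z : K} (hx : x ≠ 0) (hy : y ≠ 0) (hz : z ≠ 0)
    (h : x ^ (3 ^ e * l * p) + y ^ (3 ^ e * l * p) = z ^ (3 ^ e * l * p))
    (S : Finset (HeightOneSpectrum (𝓞 K)))
    (hS : ∀ v, v ∈ S ↔ ((p : ℕ) : 𝓞 K) ∈ v.asIdeal ∧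
      v.valuation K x = v.valuation K y ∧ v.valuation K y = v.valuation K z) :
    (∃ (C : Type) (c : HeightOneSpectrum (𝓞 K) → C) (fam : C → Finset C), (∀ a, a ∈ fam a) ∧
      (∀ a, ∀ b ∈ fam a, fam b = fam a) ∧
      (∀ a, ∀ b ∈ fam a, ∑ v ∈ S with c v = b,
        v.asIdeal.ramificationIdx ℤ * v.asIdeal.inertiaDeg ℤ =
          ∑ v ∈ S with c v = a, v.asIdeal.ramificationIdx ℤ * v.asIdeal.inertiaDeg ℤ) ∧
      ∀ v ∈ S, Alt p e v (fam (c v)).card) ∧
    ∑ v ∈ S, v.asIdeal.ramificationIdx ℤ * v.asIdeal.inertiaDeg ℤ ≤ Module.finrank ℚ K := by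
  have hfact : Fact p.Prime := ⟨hp⟩
  have hm := Module.finrank_pos (R := ℚ) (M := K)
  have h5 := hreg.le
  have hodd : Odd p := hp.odd_of_ne_two (by omega)
  obtain ⟨E, _, _, ⟨c⟩⟩ := Y978.WQ.main p (by omega)
  obtain ⟨N, _, _, i, hcard, hD⟩ := exists_DnL p E K (by omega)
  obtain ⟨Q, F, _, _, ψ, hQ, hQp, _, _, hψ⟩ := exists_resid (p := p) N
  obtain ⟨a, X₀, Y₀, Z₀, ha, hXa, hYa, hZa, hX0, hY0, hZ0, hcp, hiff⟩ := prepG hp hx hy hz
  set M : ℕ := 3 ^ e * l with hM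
  have hM0 : M ≠ 0 := by positivity
  obtain ⟨X, hX⟩ : ∃ X, X = X₀ ^ M := ⟨_, rfl⟩
  obtain ⟨Y, hY⟩ : ∃ Y, Y = Y₀ ^ M := ⟨_, rfl⟩
  obtain ⟨Z, hZ⟩ : ∃ Z, Z = -Z₀ ^ M := ⟨_, rfl⟩
  have hs : Gen p K X Y Z := by
    rw [hX, hY, hZ]
    refine ⟨pow_ne_zero _ hX0, pow_ne_zero _ hY0, neg_ne_zero.2 (pow_ne_zero _ hZ0), ?_, ?_⟩
    · rw [hodd.neg_pow, ← pow_mul, ← pow_mul, ← pow_mul]
      apply RingOfIntegers.coe_injective
      rw [map_zero, map_add, map_add, map_neg, map_pow, map_pow, map_pow, hXa, hYa, hZa, mul_pow,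
        mul_pow, mul_pow]
      linear_combination a ^ (M * p) * h
    · rintro P hP hpP ⟨h1, h2, h3⟩
      refine hcp P hP hpP ⟨hP.mem_of_pow_mem _ h1, hP.mem_of_pow_mem _ h2, ?_⟩
      have h4 : Z₀ ^ M ∈ P := by
        have := P.neg_mem h3
        rwa [neg_neg] at this
      exact hP.mem_of_pow_mem _ h4
  have hSX : ∀ v : HeightOneSpectrum (𝓞 K), v ∈ S ↔ ((p : ℕ) : 𝓞 K) ∈ v.asIdeal ∧
      X ∉ v.asIdeal ∧ Y ∉ v.asIdeal ∧ Z ∉ v.asIdeal := by
    intro v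
    have e0 : ∀ w : 𝓞 K, w ^ M ∈ v.asIdeal ↔ w ∈ v.asIdeal := fun w =>
      ⟨fun h => v.isPrime.mem_of_pow_mem _ h,
        fun h => v.asIdeal.pow_mem_of_mem h _ (Nat.pos_of_ne_zero hM0)⟩
    rw [hS, hX, hY, hZ, neg_mem_iff, e0, e0, e0]
    constructor
    · rintro ⟨h1, h2⟩
      exact ⟨h1, (hiff v h1).1 h2⟩
    · rintro ⟨h1, h2⟩
      exact ⟨h1, (hiff v h1).2 h2⟩
  -- the prime below
  have hbelow : ∀ τ : K →+* N, ((p : ℕ) : 𝓞 K) ∈ Q.comap (RingOfIntegers.mapRingHom τ) := by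
    intro τ
    rw [Ideal.mem_comap, map_natCast]
    exact hQp
  have hbot : ∀ τ : K →+* N, Q.comap (RingOfIntegers.mapRingHom τ) ≠ ⊥ := by
    intro τ h
    have := hbelow τ
    rw [h, Ideal.mem_bot, Nat.cast_eq_zero] at this
    exact hp.ne_zero this
  obtain ⟨q, hq⟩ : ∃ q : (K →+* N) → HeightOneSpectrum (𝓞 K), ∀ τ,
      Q.comap (RingOfIntegers.mapRingHom τ) = (q τ).asIdeal :=
    ⟨fun τ => ⟨_, hQ.comap _, hbot τ⟩, fun τ => rfl⟩
  have hqp : ∀ τ, ((p : ℕ) : 𝓞 K) ∈ (q τ).asIdeal := fun τ => by rw [← hq]; exact hbelow τ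
  have hqv : ∀ τ v, Q.comap (RingOfIntegers.mapRingHom τ) = v.asIdeal ↔ q τ = v := by
    intro τ v
    rw [hq]
    exact ⟨fun h => HeightOneSpectrum.ext h, fun h => by rw [h]⟩
  obtain ⟨T, hT⟩ : ∃ T : Finset (K →+* N), T = T1
      (fun τ : K →+* N => ψ (RingOfIntegers.mapRingHom τ X))
      (fun τ => ψ (RingOfIntegers.mapRingHom τ Y)) (fun τ => ψ (RingOfIntegers.mapRingHom τ Z)) :=
    ⟨_, rfl⟩
  have hTS : ∀ τ, τ ∈ T ↔ q τ ∈ S := by
    intro τ
    have e1 : ∀ b : 𝓞 K, ψ (RingOfIntegers.mapRingHom τ b) ≠ 0 ↔ b ∉ (q τ).asIdeal := by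
      intro b
      rw [Ne, hψ, ← hq, Ideal.mem_comap]
    rw [hT, mem_T1, hSX, e1, e1, e1]
    exact ⟨fun h => ⟨hqp τ, h⟩, fun h => h.2⟩
  have hTm : ∀ τ, τ ∈ T → ψ (RingOfIntegers.mapRingHom τ X) ≠ 0 ∧
      ψ (RingOfIntegers.mapRingHom τ Y) ≠ 0 ∧ ψ (RingOfIntegers.mapRingHom τ Z) ≠ 0 := by
    intro τ hτ
    rw [hT, mem_T1] at hτ
    exact hτ
  -- the residues
  let u : T → Fin 3 → F := fun τ => resid ψ X Y Z τ
  have hu0 : ∀ τ i, u τ i ≠ 0 := by
    intro τ i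
    have h1 := hTm τ τ.2
    rcases fin3a i with rfl | rfl | rfl
    · exact h1.1
    · exact h1.2.1
    · exact h1.2.2
  have hus : ∀ τ, u τ 0 + u τ 1 + u τ 2 = 0 := by
    intro τ
    change ψ (RingOfIntegers.mapRingHom τ X) + ψ (RingOfIntegers.mapRingHom τ Y) +
      ψ (RingOfIntegers.mapRingHom τ Z) = 0
    rw [← map_add, ← map_add, hψ, ← map_add, ← map_add]
    exact lin_p hp (Q.comap (RingOfIntegers.mapRingHom τ)) (hQ.comap _) (hbelow τ) hs.eq
  have hwt := wt_all (p := p) u hu0 hus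
    (fun t ht => by
      have h1 := palT c i hD hcard hreg Q hQ hQp ψ hψ hs t ht
      rw [← hT] at h1
      exact (Finset.prod_coe_sort T (fun τ => ψ (RingOfIntegers.mapRingHom τ X) +
        t * ψ (RingOfIntegers.mapRingHom τ Y))).trans (h1.trans (Finset.prod_coe_sort T
          (fun τ => ψ (RingOfIntegers.mapRingHom τ Y) +
            t * ψ (RingOfIntegers.mapRingHom τ X))).symm))
    (fun t ht => by
      have h1 := palT c i hD hcard hreg Q hQ hQp ψ hψ hs.rot t ht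
      rw [T1_rot, ← hT] at h1
      exact (Finset.prod_coe_sort T (fun τ => ψ (RingOfIntegers.mapRingHom τ Y) +
        t * ψ (RingOfIntegers.mapRingHom τ Z))).trans (h1.trans (Finset.prod_coe_sort T
          (fun τ => ψ (RingOfIntegers.mapRingHom τ Z) +
            t * ψ (RingOfIntegers.mapRingHom τ Y))).symm))
  let g : T → HeightOneSpectrum (𝓞 K) := fun τ => q τ
  have hgS : ∀ τ, g τ ∈ S := fun τ => (hTS _).1 τ.2
  have hcnt : ∀ v ∈ S, (Finset.univ.filter fun τ => g τ = v).card =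
      v.asIdeal.ramificationIdx ℤ * v.asIdeal.inertiaDeg ℤ := by
    intro v hv
    rw [← card_above hp hcard Q hQ hQp v ((hS v).1 hv).1, ← Fintype.card_subtype,
      ← Nat.card_eq_fintype_card]
    refine Nat.card_congr ⟨fun τ => ⟨τ.1.1, (hqv _ _).2 τ.2⟩,
      fun τ => ⟨⟨τ.1, (hTS _).2 (by rw [(hqv _ _).1 τ.2]; exact hv)⟩, (hqv _ _).1 τ.2⟩,
      fun τ => rfl, fun τ => rfl⟩
  -- the local data
  have factA : ∀ τ τ' : T, g τ = g τ' → cls (p := p) (u τ) = cls (u τ') := by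
    intro τ τ' h
    obtain ⟨k, i1, i2, i3, x, x0, xs, -, -, -, -, hι⟩ :=
      local_dataG (by omega) (by omega) (by omega) Q ψ hψ hs.eq e l hX hY hM0 (g τ)
        ((hSX _).1 (hgS τ)).1 ((hSX _).1 (hgS τ)).2
    obtain ⟨ι, hι1⟩ := hι τ (hq τ)
    obtain ⟨ι', hι2⟩ := hι τ' ((hqv τ' _).2 h.symm)
    have e1 : u τ = fun i => ι (x i) := funext hι1
    have e2 : u τ' = fun i => ι' (x i) := funext hι2
    rw [e1, e2]
    exact cls_indep ι ι' x x0 xs
  have factB : ∀ τ : T, Alt p e (g τ) (fam (cls (p := p) (u τ))).card := by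
    intro τ
    obtain ⟨k, i1, i2, i3, x, x0, xs, xf, xc, xw, x3, hι⟩ :=
      local_dataG (by omega) (by omega) (by omega) Q ψ hψ hs.eq e l hX hY hM0 (g τ)
        ((hSX _).1 (hgS τ)).1 ((hSX _).1 (hgS τ)).2
    obtain ⟨ι, hι1⟩ := hι τ (hq τ)
    have e1 : u τ = fun i => ι (x i) := funext hι1
    rw [e1]
    rcases fam_cases3 (by omega) ι x x0 xs _ xf with h | h | h | h
    · exact Or.inl ⟨h.1, h.2.1, x3 h.2.2⟩
    · refine Or.inr (Or.inl ⟨h.1, ?_⟩)
      rcases h.2 with h' | ⟨h1, h2⟩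
      · exact Or.inl h'
      · exact Or.inr ⟨h1, x3 h2⟩
    · refine Or.inr (Or.inr (Or.inl ⟨h.1, ?_⟩))
      rcases h.2 with h' | ⟨i, j, hij, hx⟩
      · exact Or.inr h'
      · exact Or.inl (xw i j hij hx)
    · exact Or.inr (Or.inr (Or.inr h))
  let c' : HeightOneSpectrum (𝓞 K) → Cls p F := fun v =>
    if h : ∃ τ, g τ = v then cls (u h.choose) else cls (fun _ => 1)
  have hc : ∀ τ, c' (g τ) = cls (u τ) := by
    intro τ
    have h : ∃ τ', g τ' = g τ := ⟨τ, rfl⟩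
    have e1 : c' (g τ) = cls (u h.choose) := dif_pos h
    rw [e1]
    exact factA _ _ h.choose_spec
  have hex : ∀ v ∈ S, ∃ τ, g τ = v := by
    intro v hv
    have h1 := hcnt v hv
    have hlies : v.asIdeal.LiesOver (Ideal.span {(p : ℤ)}) := by
      rw [Ideal.liesOver_span_iff v.isPrime.ne_top (Nat.prime_iff_prime_int.1 hp)]
      simpa using ((hS v).1 hv).1
    have h2 : 0 < v.asIdeal.ramificationIdx ℤ * v.asIdeal.inertiaDeg ℤ :=
      Nat.mul_pos (Ideal.ramificationIdx_pos _ _) (Ideal.inertiaDeg_pos _ _)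
    rw [← h1] at h2
    obtain ⟨τ, hτ⟩ := Finset.card_pos.1 h2
    exact ⟨τ, (Finset.mem_filter.1 hτ).2⟩
  -- the weights
  have hsum : ∀ b : Cls p F, ∑ v ∈ S with c' v = b,
      v.asIdeal.ramificationIdx ℤ * v.asIdeal.inertiaDeg ℤ =
        Nat.card {τ // cls (p := p) (u τ) = b} := by
    intro b
    rw [Nat.card_eq_fintype_card, Fintype.card_subtype,
      Finset.card_eq_sum_card_fiberwise (f := g) (t := S.filter fun v => c' v = b)]
    · refine Finset.sum_congr rfl fun v hv => ?_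
      rw [Finset.mem_filter] at hv
      rw [← hcnt v hv.1, Finset.filter_filter]
      congr 1
      ext τ
      rw [Finset.mem_filter, Finset.mem_filter]
      constructor
      · rintro ⟨h1, h2⟩
        refine ⟨h1, ?_, h2⟩
        rw [← hc, h2, hv.2]
      · rintro ⟨h1, -, h2⟩
        exact ⟨h1, h2⟩
    · intro τ hτ
      rw [Finset.mem_coe, Finset.mem_filter] at hτ
      rw [Finset.mem_coe, Finset.mem_filter]
      exact ⟨hgS τ, by rw [hc]; exact hτ.2⟩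
  refine ⟨⟨Cls p F, c', fam, fam_self, fun a b hb => fam_eq hb, ?_, ?_⟩, ?_⟩
  · intro a b hb
    obtain ⟨σ, rfl⟩ := mem_fam.1 hb
    exact (hsum _).trans ((hwt σ a).trans (hsum a).symm)
  · intro v hv
    obtain ⟨τ, rfl⟩ := hex v hv
    rw [hc]
    exact factB τ
  · have h1 : T.card = ∑ v ∈ S, v.asIdeal.ramificationIdx ℤ * v.asIdeal.inertiaDeg ℤ :=
      card_fib hp hcard Q hQ hQp S (fun v hv => ((hS v).1 hv).1) T (by
        intro τ
        rw [hTS]
        constructor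
        · intro h1
          exact ⟨q τ, h1, hq τ⟩
        · rintro ⟨v, h1, h2⟩
          rw [hqv] at h2
          rwa [← h2] at h1)
    rw [← h1, ← hcard, Nat.card_eq_fintype_card]
    exact Finset.card_le_univ _

end Pool.Agent.Q279.FL
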