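import Pool.Agent.Q279.FL.Main

/-!
# Even exponents
-/

set_option autoImplicit false

namespace Pool.Agent.Q279.FL

open NumberField IsDedekindDomain Polynomial Pool.Agent.Y546.WQ

section

variable {p : ℕ} [Fact p.Prime] {E K N F : Type} [Field E] [NumberField E] [Field K]
  [NumberField K] [Field N] [NumberField N] [Field F] [Algebra (ZMod p) F] [Infinite F]

theorem ratio_T {ι : Type} (T : Finset ι) (x y : ι → F) (hx : ∀ i ∈ T, x i ≠ 0)
    (hy : ∀ i ∈ T, y i ≠ 0)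
    (h : ∀ t : F, t ≠ 0 → ∏ i ∈ T, (x i + t * y i) = ∏ i ∈ T, (y i + t * x i)) :
    Multiset.map (fun i => x i / y i) T.val = Multiset.map (fun i => y i / x i) T.val := by
  classical
  have h1 := Q264.FB.ratio_eq (ι := T) (fun σ => x σ) (fun σ => y σ)
    (fun σ => hx σ σ.2) (fun σ => hy σ σ.2) (by
      intro t ht
      exact (Finset.prod_coe_sort T (fun τ => x τ + t * y τ)).trans
        ((h t ht).trans (Finset.prod_coe_sort T (fun τ => y τ + t * x τ)).symm))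
  have key : ∀ g : ι → F, Multiset.map (fun σ : T => g σ) Finset.univ.val =
      Multiset.map g T.val := by
    intro g
    have h2 : T.val = Multiset.map (fun σ : T => (σ : ι)) Finset.univ.val := by
      rw [Finset.univ_eq_attach, Finset.attach_val]
      exact (Multiset.attach_map_val T.val).symm
    rw [h2, Multiset.map_map]
    rfl
  rw [key (fun i => x i / y i), key (fun i => y i / x i)] at h1
  exact h1

omit [Algebra (ZMod p) F] [Infinite F] in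
theorem T1_rot {ι : Type} [Fintype ι] (x y z : ι → F) : T1 y z x = T1 x y z := by
  ext i
  rw [mem_T1, mem_T1]
  tauto

/-- the three multisets of ratios are equal -/
theorem three_ratios (c : Cyc p E) (i : E →+* N) (hD : DnL p E N i)
    (hcard : Nat.card (K →+* N) = Module.finrank ℚ K) (hreg : RegC p (Module.finrank ℚ K))
    (Q : Ideal (𝓞 N)) (hQ : Q.IsPrime) (hQp : ((p : ℕ) : 𝓞 N) ∈ Q) (ψ : 𝓞 N →+* F)
    (hψ : ∀ w : 𝓞 N, ψ w = 0 ↔ w ∈ Q) {X Y Z : 𝓞 K} (hs : Gen p K X Y Z)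
    (x y z : (K →+* N) → F) (hx : x = fun τ => ψ (RingOfIntegers.mapRingHom τ X))
    (hy : y = fun τ => ψ (RingOfIntegers.mapRingHom τ Y))
    (hz : z = fun τ => ψ (RingOfIntegers.mapRingHom τ Z)) :
    (∀ τ, x τ + y τ + z τ = 0) ∧
    Multiset.map (fun τ => y τ / x τ) (T1 x y z).val =
      Multiset.map (fun τ => z τ / y τ) (T1 x y z).val ∧
    Multiset.map (fun τ => z τ / y τ) (T1 x y z).val =
      Multiset.map (fun τ => x τ / z τ) (T1 x y z).val := by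
  classical
  have hpp : p.Prime := Fact.out
  have hsum : ∀ τ, x τ + y τ + z τ = 0 := by
    intro τ
    simp only [hx, hy, hz]
    rw [← map_add, ← map_add, hψ, ← map_add, ← map_add]
    exact lin_p hpp (Q.comap (RingOfIntegers.mapRingHom τ)) (hQ.comap _)
      (by rw [Ideal.mem_comap, map_natCast]; exact hQp) hs.eq
  have hmem : ∀ τ ∈ T1 x y z, x τ ≠ 0 ∧ y τ ≠ 0 ∧ z τ ≠ 0 := fun τ hτ => (mem_T1 x y z τ).1 hτ
  have p1 := ratio_T (T1 x y z) x y (fun τ h => (hmem τ h).1) (fun τ h => (hmem τ h).2.1)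
    (fun t ht => by
      subst hx hy hz
      exact palT c i hD hcard hreg Q hQ hQp ψ hψ hs t ht)
  have p2 := ratio_T (T1 x y z) y z (fun τ h => (hmem τ h).2.1) (fun τ h => (hmem τ h).2.2)
    (fun t ht => by
      subst hx hy hz
      rw [← T1_rot]
      exact palT c i hD hcard hreg Q hQ hQp ψ hψ hs.rot t ht)
  have p3 := ratio_T (T1 x y z) z x (fun τ h => (hmem τ h).2.2) (fun τ h => (hmem τ h).1)
    (fun t ht => by
      subst hx hy hz
      rw [← T1_rot, ← T1_rot]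
      exact palT c i hD hcard hreg Q hQ hQp ψ hψ hs.rot.rot t ht)
  -- passing to the other ratio with the same denominator
  have key : ∀ u v w : (K →+* N) → F, (∀ τ, u τ + v τ + w τ = 0) → (∀ τ ∈ T1 x y z, v τ ≠ 0) →
      Multiset.map (fun τ => w τ / v τ) (T1 x y z).val =
        Multiset.map (fun a => -1 - a) (Multiset.map (fun τ => u τ / v τ) (T1 x y z).val) := by
    intro u v w hsum hv
    rw [Multiset.map_map]
    refine Multiset.map_congr rfl fun τ hτ => ?_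
    have h1 := hv τ hτ
    have h2 := hsum τ
    rw [Function.comp_apply]
    field_simp
    linear_combination h2
  have q1 := key x y z hsum (fun τ h => (hmem τ h).2.1)
  have q2 := key y x z (fun τ => by rw [← hsum τ]; ring) (fun τ h => (hmem τ h).1)
  have q3 := key z x y (fun τ => by rw [← hsum τ]; ring) (fun τ h => (hmem τ h).1)
  have q4 := key x z y (fun τ => by rw [← hsum τ]; ring) (fun τ h => (hmem τ h).2.2)
  refine ⟨hsum, ?_, ?_⟩
  · rw [q3, p3, ← q4, p2]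
  · rw [q1, p1, ← q2, p3]

omit [NumberField N] [Algebra (ZMod p) F] [Infinite F] in
theorem elt_fin (Q : Ideal (𝓞 N)) (ψ : 𝓞 N →+* F) (hψ : ∀ w : 𝓞 N, ψ w = 0 ↔ w ∈ Q)
    (ρ : K →+* N) (w : 𝓞 K) (hw : ψ (RingOfIntegers.mapRingHom ρ w) ≠ 0)
    (P : HeightOneSpectrum (𝓞 K)) (hP : Q.comap (RingOfIntegers.mapRingHom ρ) = P.asIdeal) :
    ψ (RingOfIntegers.mapRingHom ρ w) ^ (Nat.card (𝓞 K ⧸ P.asIdeal) - 1) = 1 := by
  have hPm : P.asIdeal.IsMaximal := P.isPrime.isMaximal P.ne_bot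
  let _ : Field (𝓞 K ⧸ P.asIdeal) := Ideal.Quotient.field P.asIdeal
  have hfinP : Finite (𝓞 K ⧸ P.asIdeal) := Ideal.finiteQuotientOfFreeOfNeBot P.asIdeal P.ne_bot
  let _ : Fintype (𝓞 K ⧸ P.asIdeal) := Fintype.ofFinite _
  have h1 : Ideal.Quotient.mk P.asIdeal w ≠ 0 := by
    intro h0
    apply hw
    rw [hψ]
    have h2 := Ideal.Quotient.eq_zero_iff_mem.1 h0
    rw [← hP, Ideal.mem_comap] at h2
    exact h2
  have h2 := FiniteField.pow_card_sub_one_eq_one _ h1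
  rw [← map_pow, ← map_one (Ideal.Quotient.mk P.asIdeal), Ideal.Quotient.eq] at h2
  have h2' : w ^ (Fintype.card (𝓞 K ⧸ P.asIdeal) - 1) - 1 ∈
      Q.comap (RingOfIntegers.mapRingHom ρ) := by
    rw [hP]
    exact h2
  rw [Ideal.mem_comap] at h2'
  have h3 := (hψ _).2 h2'
  rw [map_sub, map_sub, map_pow, map_pow, map_one, map_one, sub_eq_zero] at h3
  rw [Nat.card_eq_fintype_card]
  exact h3

end

/-- no power of two equal to minus one -/
theorem no_pow {F : Type} [Field F] (h2 : (2 : F) ≠ 0) (j a b : ℕ) (u t : F) (hu : u ^ a = 1)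
    (ht : t ^ b = 1) (ha : ¬ 2 ^ (j + 1) ∣ a) (hb : ¬ 2 ^ (j + 1) ∣ b)
    (h : (u * t) ^ (2 ^ j) = -1) : False := by
  have key : ∀ a : ℕ, ¬ 2 ^ (j + 1) ∣ a → ∃ o : ℕ, Odd o ∧ a ∣ 2 ^ j * o := by
    intro a ha
    have ha0 : a ≠ 0 := by
      rintro rfl
      exact ha (dvd_zero _)
    obtain ⟨α, o, ho, hao⟩ := Nat.exists_eq_two_pow_mul_odd ha0
    refine ⟨o, ho, ?_⟩
    rw [hao]
    refine Nat.mul_dvd_mul_right (pow_dvd_pow 2 ?_) o
    by_contra hcon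
    push Not at hcon
    apply ha
    rw [hao]
    exact (pow_dvd_pow 2 hcon).mul_right o
  obtain ⟨o, ho, hao⟩ := key a ha
  obtain ⟨o', ho', hbo⟩ := key b hb
  have h1 : (u * t) ^ (2 ^ j * (o * o')) = 1 := by
    rw [mul_pow]
    have e1 : u ^ (2 ^ j * (o * o')) = 1 := by
      obtain ⟨q, hq⟩ := hao
      rw [← mul_assoc, hq, mul_assoc, pow_mul, hu, one_pow]
    have e2 : t ^ (2 ^ j * (o * o')) = 1 := by
      obtain ⟨q, hq⟩ := hbo
      rw [mul_comm o o', ← mul_assoc, hq, mul_assoc, pow_mul, ht, one_pow]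
    rw [e1, e2, one_mul]
  rw [pow_mul, h, (ho.mul ho').neg_one_pow] at h1
  apply h2
  linear_combination -h1

/-- counting with disjoint images -/
theorem two_card {ι F : Type} [DecidableEq F] (A B : Finset ι) (f g h : ι → F)
    (hg : Multiset.map g A.val ≤ Multiset.map f A.val + Multiset.map f B.val)
    (hh : Multiset.map h A.val ≤ Multiset.map f A.val + Multiset.map f B.val)
    (hfg : ∀ a ∈ A, ∀ b ∈ A, f a ≠ g b) (hfh : ∀ a ∈ A, ∀ b ∈ A, f a ≠ h b)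
    (hgh : ∀ a ∈ A, ∀ b ∈ A, g a ≠ h b) : 2 * A.card ≤ B.card := by
  have h0 : ∀ (u v : ι → F), (∀ a ∈ A, ∀ b ∈ A, u a ≠ v b) → ∀ r : F,
      Multiset.count r (Multiset.map u A.val) = 0 ∨ Multiset.count r (Multiset.map v A.val) = 0 := by
    intro u v huv r
    by_contra hcon
    push Not at hcon
    have h1 := Multiset.count_ne_zero.1 hcon.1
    have h2 := Multiset.count_ne_zero.1 hcon.2
    obtain ⟨a, ha, ha'⟩ := Multiset.mem_map.1 h1
    obtain ⟨b, hb, hb'⟩ := Multiset.mem_map.1 h2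
    exact huv a ha b hb (ha'.trans hb'.symm)
  have h1 : Multiset.map g A.val + Multiset.map h A.val ≤ Multiset.map f B.val := by
    rw [Multiset.le_iff_count]
    intro r
    have c1 := Multiset.le_iff_count.1 hg r
    have c2 := Multiset.le_iff_count.1 hh r
    rw [Multiset.count_add] at c1 c2 ⊢
    have d1 := h0 f g hfg r
    have d2 := h0 f h hfh r
    have d3 := h0 g h hgh r
    omega
  have h2 := Multiset.card_le_card h1
  rw [Multiset.card_add, Multiset.card_map, Multiset.card_map, Multiset.card_map] at h2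
  change A.card + A.card ≤ B.card at h2
  omega

open Classical in
/-- counting embeddings by local degrees -/
theorem card_fib {K N : Type} [Field K] [NumberField K] [Field N] [NumberField N] {p : ℕ}
    (hp : p.Prime) (hcard : Nat.card (K →+* N) = Module.finrank ℚ K)
    (Q : Ideal (𝓞 N)) (hQ : Q.IsPrime) (hQp : ((p : ℕ) : 𝓞 N) ∈ Q)
    (S : Finset (HeightOneSpectrum (𝓞 K))) (hS : ∀ v ∈ S, ((p : ℕ) : 𝓞 K) ∈ v.asIdeal)
    (T : Finset (K →+* N))
    (hT : ∀ τ, τ ∈ T ↔ ∃ v ∈ S, Q.comap (RingOfIntegers.mapRingHom τ) = v.asIdeal) :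
    T.card = ∑ v ∈ S, v.asIdeal.ramificationIdx ℤ * v.asIdeal.inertiaDeg ℤ := by
  have hbot : ∀ τ : K →+* N, Q.comap (RingOfIntegers.mapRingHom τ) ≠ ⊥ := by
    intro τ h0
    have h1 : ((p : ℕ) : 𝓞 K) ∈ Q.comap (RingOfIntegers.mapRingHom τ) := by
      rw [Ideal.mem_comap, map_natCast]
      exact hQp
    rw [h0, Ideal.mem_bot, Nat.cast_eq_zero] at h1
    exact hp.ne_zero h1
  let g : (K →+* N) → HeightOneSpectrum (𝓞 K) := fun τ =>
    ⟨Q.comap (RingOfIntegers.mapRingHom τ), hQ.comap _, hbot τ⟩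
  have hg : ∀ τ v, g τ = v ↔ Q.comap (RingOfIntegers.mapRingHom τ) = v.asIdeal := by
    intro τ v
    constructor
    · rintro rfl
      rfl
    · intro h
      exact HeightOneSpectrum.ext h
  rw [Finset.card_eq_sum_card_fiberwise (f := g) (t := S)]
  · refine Finset.sum_congr rfl fun v hv => ?_
    rw [← Q264.FB.card_above hp hcard Q hQ hQp v (hS v hv), Nat.card_eq_fintype_card,
      Fintype.card_subtype]
    congr 1
    ext τ
    rw [Finset.mem_filter, Finset.mem_filter, hg, hT]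
    constructor
    · rintro ⟨-, h⟩
      exact ⟨Finset.mem_univ _, h⟩
    · rintro ⟨-, h⟩
      exact ⟨⟨v, hv, h⟩, h⟩
  · intro τ hτ
    rw [Finset.mem_coe, hT] at hτ
    obtain ⟨v, hv, h⟩ := hτ
    rw [Finset.mem_coe, (hg τ v).2 h]
    exact hv

open Classical in
/-- the theorem on even exponents -/
theorem mainEven {K : Type} [Field K] [NumberField K] {p : ℕ} (hp : p.Prime)
    (hreg : RegC p (Module.finrank ℚ K)) (j k : ℕ) (hk : 0 < k)
    {x y z : K} (hx : x ≠ 0) (hy : y ≠ 0) (hz : z ≠ 0)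
    (h : x ^ (2 ^ j * k * p) + y ^ (2 ^ j * k * p) = z ^ (2 ^ j * k * p))
    (S : Finset (HeightOneSpectrum (𝓞 K)))
    (hS : ∀ v, v ∈ S ↔ ((p : ℕ) : 𝓞 K) ∈ v.asIdeal ∧
      v.valuation K x = v.valuation K y ∧ v.valuation K y = v.valuation K z) :
    2 * ∑ v ∈ S with ¬ 2 ^ (j + 1) ∣ Nat.card (𝓞 K ⧸ v.asIdeal) - 1,
        v.asIdeal.ramificationIdx ℤ * v.asIdeal.inertiaDeg ℤ ≤
      ∑ v ∈ S with 2 ^ (j + 1) ∣ Nat.card (𝓞 K ⧸ v.asIdeal) - 1,
        v.asIdeal.ramificationIdx ℤ * v.asIdeal.inertiaDeg ℤ ∧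
    ∑ v ∈ S, v.asIdeal.ramificationIdx ℤ * v.asIdeal.inertiaDeg ℤ ≤ Module.finrank ℚ K := by
  have hfact : Fact p.Prime := ⟨hp⟩
  have hm := Module.finrank_pos (R := ℚ) (M := K)
  have h5 := hreg.le
  have hodd : Odd p := hp.odd_of_ne_two (by omega)
  obtain ⟨E, _, _, ⟨c⟩⟩ := Y978.WQ.main p (by omega)
  obtain ⟨N, _, _, i, hcard, hD⟩ := exists_DnL p E K (by omega)
  obtain ⟨Q, F, _, _, ψ, hQ, hQp, _, _, hψ⟩ := Q264.FB.exists_resid (p := p) N
  obtain ⟨a, X, Y, Z, ha, hXa, hYa, hZa, hX0, hY0, hZ0, hcp, hiff⟩ := prepG hp hx hy hz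
  set M : ℕ := 2 ^ j * k with hM
  have hM0 : M ≠ 0 := by positivity
  have hs : Gen p K (X ^ M) (Y ^ M) (-Z ^ M) := by
    refine ⟨pow_ne_zero _ hX0, pow_ne_zero _ hY0, neg_ne_zero.2 (pow_ne_zero _ hZ0), ?_, ?_⟩
    · rw [hodd.neg_pow, ← pow_mul, ← pow_mul, ← pow_mul]
      apply RingOfIntegers.coe_injective
      rw [map_zero, map_add, map_add, map_neg, map_pow, map_pow, map_pow, hXa, hYa, hZa, mul_pow,
        mul_pow, mul_pow]
      linear_combination a ^ (M * p) * h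
    · rintro P hP hpP ⟨h1, h2, h3⟩
      refine hcp P hP hpP ⟨hP.mem_of_pow_mem _ h1, hP.mem_of_pow_mem _ h2, ?_⟩
      have h4 : Z ^ M ∈ P := by
        have := P.neg_mem h3
        rwa [neg_neg] at this
      exact hP.mem_of_pow_mem _ h4
  obtain ⟨α, hα⟩ : ∃ α : (K →+* N) → F, α = fun τ => ψ (RingOfIntegers.mapRingHom τ X) :=
    ⟨_, rfl⟩
  obtain ⟨β, hβ⟩ : ∃ β : (K →+* N) → F, β = fun τ => ψ (RingOfIntegers.mapRingHom τ Y) :=
    ⟨_, rfl⟩
  obtain ⟨γ, hγ⟩ : ∃ γ : (K →+* N) → F, γ = fun τ => ψ (RingOfIntegers.mapRingHom τ Z) :=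
    ⟨_, rfl⟩
  obtain ⟨u, hu⟩ : ∃ u : (K →+* N) → F, u = fun τ => ψ (RingOfIntegers.mapRingHom τ (X ^ M)) :=
    ⟨_, rfl⟩
  obtain ⟨v, hv⟩ : ∃ v : (K →+* N) → F, v = fun τ => ψ (RingOfIntegers.mapRingHom τ (Y ^ M)) :=
    ⟨_, rfl⟩
  obtain ⟨w, hw⟩ : ∃ w : (K →+* N) → F, w = fun τ => ψ (RingOfIntegers.mapRingHom τ (-Z ^ M)) :=
    ⟨_, rfl⟩
  have hu' : ∀ τ, u τ = α τ ^ M := fun τ => by rw [hu, hα, ← map_pow, ← map_pow]
  have hv' : ∀ τ, v τ = β τ ^ M := fun τ => by rw [hv, hβ, ← map_pow, ← map_pow]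
  have hw' : ∀ τ, w τ = -γ τ ^ M := fun τ => by
    simp only [hw, hγ, map_neg, map_pow]
  obtain ⟨hsum, m1, m2⟩ := three_ratios c i hD hcard hreg Q hQ hQp ψ hψ hs u v w hu hv hw
  have hmem : ∀ τ, τ ∈ T1 u v w ↔ α τ ≠ 0 ∧ β τ ≠ 0 ∧ γ τ ≠ 0 := by
    intro τ
    rw [mem_T1, hu', hv', hw', neg_ne_zero, pow_ne_zero_iff hM0, pow_ne_zero_iff hM0,
      pow_ne_zero_iff hM0]
  -- the prime below
  have hbot : ∀ τ : K →+* N, Q.comap (RingOfIntegers.mapRingHom τ) ≠ ⊥ := by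
    intro τ h0
    have h1 : ((p : ℕ) : 𝓞 K) ∈ Q.comap (RingOfIntegers.mapRingHom τ) := by
      rw [Ideal.mem_comap, map_natCast]
      exact hQp
    rw [h0, Ideal.mem_bot, Nat.cast_eq_zero] at h1
    exact hp.ne_zero h1
  obtain ⟨q, hq⟩ : ∃ q : (K →+* N) → HeightOneSpectrum (𝓞 K), ∀ τ,
      Q.comap (RingOfIntegers.mapRingHom τ) = (q τ).asIdeal :=
    ⟨fun τ => ⟨_, hQ.comap _, hbot τ⟩, fun τ => rfl⟩
  have hqp : ∀ τ, ((p : ℕ) : 𝓞 K) ∈ (q τ).asIdeal := by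
    intro τ
    rw [← hq, Ideal.mem_comap, map_natCast]
    exact hQp
  have hqS : ∀ τ, τ ∈ T1 u v w ↔ q τ ∈ S := by
    intro τ
    rw [hmem, hS, hiff (q τ) (hqp τ)]
    have e : ∀ b : 𝓞 K, ψ (RingOfIntegers.mapRingHom τ b) ≠ 0 ↔ b ∉ (q τ).asIdeal := by
      intro b
      rw [Ne, hψ, ← hq, Ideal.mem_comap]
    rw [hα, hβ, hγ, e, e, e]
    exact ⟨fun h => ⟨hqp τ, h⟩, fun h => h.2⟩
  have hqv : ∀ τ v, Q.comap (RingOfIntegers.mapRingHom τ) = v.asIdeal ↔ q τ = v := by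
    intro τ v
    rw [hq]
    exact ⟨fun h => HeightOneSpectrum.ext h, fun h => by rw [h]⟩
  set A := (T1 u v w).filter fun τ => ¬ 2 ^ (j + 1) ∣ Nat.card (𝓞 K ⧸ (q τ).asIdeal) - 1 with hA
  set B := (T1 u v w).filter fun τ => 2 ^ (j + 1) ∣ Nat.card (𝓞 K ⧸ (q τ).asIdeal) - 1 with hB
  have cA := card_fib hp hcard Q hQ hQp
    (S.filter fun v => ¬ 2 ^ (j + 1) ∣ Nat.card (𝓞 K ⧸ v.asIdeal) - 1)
    (fun v hv => ((hS v).1 (Finset.mem_filter.1 hv).1).1) A (by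
      intro τ
      rw [hA, Finset.mem_filter, hqS]
      constructor
      · rintro ⟨h1, h2⟩
        exact ⟨q τ, Finset.mem_filter.2 ⟨h1, h2⟩, hq τ⟩
      · rintro ⟨v, h1, h2⟩
        rw [hqv] at h2
        rw [← h2, Finset.mem_filter] at h1
        exact h1)
  have cB := card_fib hp hcard Q hQ hQp
    (S.filter fun v => 2 ^ (j + 1) ∣ Nat.card (𝓞 K ⧸ v.asIdeal) - 1)
    (fun v hv => ((hS v).1 (Finset.mem_filter.1 hv).1).1) B (by
      intro τ
      rw [hB, Finset.mem_filter, hqS]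
      constructor
      · rintro ⟨h1, h2⟩
        exact ⟨q τ, Finset.mem_filter.2 ⟨h1, h2⟩, hq τ⟩
      · rintro ⟨v, h1, h2⟩
        rw [hqv] at h2
        rw [← h2, Finset.mem_filter] at h1
        exact h1)
  have cT := card_fib hp hcard Q hQ hQp S (fun v hv => ((hS v).1 hv).1) (T1 u v w) (by
      intro τ
      rw [hqS]
      constructor
      · intro h1
        exact ⟨q τ, h1, hq τ⟩
      · rintro ⟨v, h1, h2⟩
        rw [hqv] at h2
        rwa [← h2] at h1)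
  have hTm : (T1 u v w).card ≤ Module.finrank ℚ K := by
    rw [← hcard, Nat.card_eq_fintype_card]
    exact Finset.card_le_univ _
  rw [← cA, ← cB, ← cT]
  refine ⟨?_, hTm⟩
  have hch : CharP F p := charP_of_injective_algebraMap (algebraMap (ZMod p) F).injective p
  have h2F : (2 : F) ≠ 0 := by
    intro h0
    have h1 : ((2 : ℕ) : F) = 0 := by exact_mod_cast h0
    rw [CharP.cast_eq_zero_iff F p] at h1
    have := Nat.le_of_dvd (by norm_num) h1
    omega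
  have hAB : (T1 u v w).val = A.val + B.val := by
    rw [hA, hB, Finset.filter_val, Finset.filter_val, add_comm]
    exact (Multiset.filter_add_not _ _).symm
  have hAle : A.val ≤ (T1 u v w).val := by
    rw [hAB]
    exact Multiset.le_add_right _ _
  -- no sign changes
  have hfin : ∀ τ ∈ A, α τ ≠ 0 ∧ β τ ≠ 0 ∧ γ τ ≠ 0 ∧
      ¬ 2 ^ (j + 1) ∣ Nat.card (𝓞 K ⧸ (q τ).asIdeal) - 1 ∧
      α τ ^ (Nat.card (𝓞 K ⧸ (q τ).asIdeal) - 1) = 1 ∧
      β τ ^ (Nat.card (𝓞 K ⧸ (q τ).asIdeal) - 1) = 1 ∧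
      γ τ ^ (Nat.card (𝓞 K ⧸ (q τ).asIdeal) - 1) = 1 := by
    intro τ hτ
    rw [hA, Finset.mem_filter, hmem] at hτ
    obtain ⟨⟨h1, h2, h3⟩, h4⟩ := hτ
    refine ⟨h1, h2, h3, h4, ?_, ?_, ?_⟩
    · rw [hα] at h1 ⊢
      exact elt_fin Q ψ hψ τ X h1 (q τ) (hq τ)
    · rw [hβ] at h2 ⊢
      exact elt_fin Q ψ hψ τ Y h2 (q τ) (hq τ)
    · rw [hγ] at h3 ⊢
      exact elt_fin Q ψ hψ τ Z h3 (q τ) (hq τ)
  have hno : ∀ (τ σ : K →+* N) (b c d e : F), b ≠ 0 → c ≠ 0 → d ≠ 0 → e ≠ 0 →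
      ¬ 2 ^ (j + 1) ∣ Nat.card (𝓞 K ⧸ (q τ).asIdeal) - 1 →
      ¬ 2 ^ (j + 1) ∣ Nat.card (𝓞 K ⧸ (q σ).asIdeal) - 1 →
      b ^ (Nat.card (𝓞 K ⧸ (q τ).asIdeal) - 1) = 1 → c ^ (Nat.card (𝓞 K ⧸ (q τ).asIdeal) - 1) = 1 →
      d ^ (Nat.card (𝓞 K ⧸ (q σ).asIdeal) - 1) = 1 → e ^ (Nat.card (𝓞 K ⧸ (q σ).asIdeal) - 1) = 1 →
      b ^ M / c ^ M ≠ -(d ^ M / e ^ M) := by
    intro τ σ b c d e hb hc hd he h1 h2 b1 c1 d1 e1 heq
    refine no_pow h2F j (Nat.card (𝓞 K ⧸ (q τ).asIdeal) - 1)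
      (Nat.card (𝓞 K ⧸ (q σ).asIdeal) - 1) ((b / c) ^ k) ((e / d) ^ k) ?_ ?_ h1 h2 ?_
    · rw [← pow_mul, mul_comm k, pow_mul, div_pow, b1, c1, div_one, one_pow]
    · rw [← pow_mul, mul_comm k, pow_mul, div_pow, d1, e1, div_one, one_pow]
    · rw [← mul_pow, ← pow_mul, mul_comm k, ← hM, mul_pow, div_pow, div_pow, heq]
      have := pow_ne_zero M hd
      have := pow_ne_zero M he
      field_simp
  have hfg : ∀ τ ∈ A, ∀ σ ∈ A, v τ / u τ ≠ w σ / v σ := by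
    intro τ hτ σ hσ heq
    obtain ⟨a1, a2, a3, a4, a5, a6, a7⟩ := hfin τ hτ
    obtain ⟨b1, b2, b3, b4, b5, b6, b7⟩ := hfin σ hσ
    rw [hu', hv', hv', hw', neg_div] at heq
    exact hno τ σ (β τ) (α τ) (γ σ) (β σ) a2 a1 b3 b2 a4 b4 a6 a5 b7 b6 heq
  have hfh : ∀ τ ∈ A, ∀ σ ∈ A, v τ / u τ ≠ u σ / w σ := by
    intro τ hτ σ hσ heq
    obtain ⟨a1, a2, a3, a4, a5, a6, a7⟩ := hfin τ hτ
    obtain ⟨b1, b2, b3, b4, b5, b6, b7⟩ := hfin σ hσ
    rw [hu', hu', hv', hw', div_neg] at heq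
    exact hno τ σ (β τ) (α τ) (α σ) (γ σ) a2 a1 b1 b3 a4 b4 a6 a5 b5 b7 heq
  refine two_card A B (fun τ => v τ / u τ) (fun τ => w τ / v τ) (fun τ => u τ / w τ) ?_ ?_ hfg hfh ?_
  · rw [← Multiset.map_add, ← hAB, m1]
    exact Multiset.map_le_map hAle
  · rw [← Multiset.map_add, ← hAB, m1, m2]
    exact Multiset.map_le_map hAle
  · intro τ hτ σ hσ heq
    apply hfg τ hτ σ hσ
    have t1 := (mem_T1 u v w τ).1 (Finset.mem_filter.1 hτ).1
    have t2 := (mem_T1 u v w σ).1 (Finset.mem_filter.1 hσ).1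
    have s1 := hsum τ
    have s2 := hsum σ
    rw [div_eq_div_iff t1.2.1 t2.2.2] at heq
    rw [div_eq_div_iff t1.1 t2.2.1]
    have e1 : u τ = -v τ - w τ := by linear_combination s1
    have e2 : v σ = -u σ - w σ := by linear_combination s2
    rw [e1, e2]
    linear_combination heq

end Pool.Agent.Q279.FL
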