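import Pool.Agent.Y546.WQ.Pal
import Pool.Agent.Y258.WQ.DOWNG
import Pool.Agent.Y261.WQ.IDE

/-!
# The norm of `x + ζ y` outside `p`, for all solutions
-/

set_option autoImplicit false

namespace Pool.Agent.Q279.FL

open NumberField IsDedekindDomain Polynomial Pool.Agent.Y546.WQ

/-- primes of `E` outside `p` have primes of `N` above them, with ramification index prime to `p` -/
def DnL (p : ℕ) (E N : Type) [Field E] [NumberField E] [Field N] [NumberField N]
    (i : E →+* N) : Prop :=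
  ∀ P : HeightOneSpectrum (𝓞 E), ((p : ℕ) : 𝓞 E) ∉ P.asIdeal →
    ∃ (w : HeightOneSpectrum (𝓞 N)) (e : ℕ), ((p : ℕ) : 𝓞 N) ∉ w.asIdeal ∧ ¬ p ∣ e ∧
      ∀ x : E, w.valuation N (i x) = P.valuation E x ^ e

theorem exists_DnL (p : ℕ) [Fact p.Prime] (E : Type) [Field E] [NumberField E]
    (K : Type) [Field K] [NumberField K] (hK : Module.finrank ℚ K < p) :
    ∃ (N : Type) (_ : Field N) (_ : NumberField N) (i : E →+* N),
      Nat.card (K →+* N) = Module.finrank ℚ K ∧ DnL p E N i := by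
  obtain ⟨N, iF, iN, iA, hG, hcard, hdvd⟩ := Y258.WQ.exists_field E K
  refine ⟨N, iF, iN, algebraMap E N, hcard, ?_⟩
  intro P hP
  obtain ⟨w, e, he, hw⟩ := Y258.WQ.exists_above (L := N) P
  refine ⟨w, e, ?_, ?_, hw⟩
  · intro hm
    have h1 := (w.valuation_lt_one_iff_mem (K := N) ((p : ℕ) : 𝓞 N)).2 hm
    have h2 : P.valuation E (((p : ℕ) : 𝓞 E) : E) = 1 := val_one P _ hP
    have h3 := hw ((p : ℕ) : E)
    have e1 : (((p : ℕ) : 𝓞 E) : E) = ((p : ℕ) : E) := map_natCast (algebraMap (𝓞 E) E) p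
    have h1' : w.valuation N ((p : ℕ) : N) < 1 := by simpa using h1
    rw [e1] at h2
    rw [h2, one_pow, map_natCast] at h3
    rw [h3] at h1'
    exact lt_irrefl _ h1'
  · intro h1
    have h2 := (Nat.Prime.dvd_factorial (Fact.out : p.Prime)).1 ((h1.trans he).trans hdvd)
    omega

theorem prod_exp {ι : Type*} (s : Finset ι) (g : ι → ℤ) :
    ∏ τ ∈ s, WithZero.exp (g τ) = WithZero.exp (∑ τ ∈ s, g τ) := by
  classical
  induction s using Finset.induction_on with
  | empty => simp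
  | insert a s ha ih => rw [Finset.prod_insert ha, Finset.sum_insert ha, ih, WithZero.exp_add]

section

variable {p : ℕ} [Fact p.Prime] {N : Type} [Field N] [NumberField N]

/-- the valuations of the factors of a sum of two `p`-th powers, outside `p` -/
theorem fac_val (w : HeightOneSpectrum (𝓞 N)) (hw : ((p : ℕ) : 𝓞 N) ∉ w.asIdeal) (hp2 : p ≠ 2)
    {z : 𝓞 N} (hz : IsPrimitiveRoot z p) {X Y Z : 𝓞 N} (hY : Y ≠ 0) (hZ : Z ≠ 0)
    (h : X ^ p + Y ^ p + Z ^ p = 0) :
    ∃ μ : ℤ, ∀ η : 𝓞 N, η ^ p = 1 → ∃ m : ℤ,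
      w.valuation N ((X + η * Y : 𝓞 N) : N) = WithZero.exp (μ + p * m) := by
  classical
  have hp : p.Prime := Fact.out
  have hodd : Odd p := hp.odd_of_ne_two hp2
  set v : 𝓞 N → WithZero (Multiplicative ℤ) := fun a => w.valuation N (algebraMap (𝓞 N) N a)
    with hv
  have vmul : ∀ a b, v (a * b) = v a * v b := by
    intro a b
    simp only [hv, map_mul]
  have vadd : ∀ a b, v (a + b) ≤ max (v a) (v b) := by
    intro a b
    simp only [hv, map_add]
    exact Valuation.map_add _ _ _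
  have vsub : ∀ a b, v (a - b) ≤ max (v a) (v b) := by
    intro a b
    simp only [hv, map_sub]
    exact Valuation.map_sub _ _ _
  have vle : ∀ a, v a ≤ 1 := fun a => w.valuation_le_one (K := N) a
  have vne : ∀ a, a ≠ 0 → v a ≠ 0 := by
    intro a ha
    simp only [hv]
    rw [Valuation.ne_zero_iff]
    intro h0
    exact ha (RingOfIntegers.coe_injective (by rw [map_zero]; exact h0))
  have vunit : ∀ η : 𝓞 N, η ^ p = 1 → v η = 1 := by
    intro η hη
    apply val_one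
    intro hm
    apply one_notMem w.asIdeal w.isPrime
    rw [← hη]
    exact w.asIdeal.pow_mem_of_mem hm p hp.pos
  have vdiff : ∀ η ξ : 𝓞 N, η ^ p = 1 → ξ ^ p = 1 → η ≠ ξ → v (η - ξ) = 1 := by
    intro η ξ hη hξ hne
    apply val_one
    intro hm
    apply hw
    have hu : IsUnit η := IsUnit.of_pow_eq_one hη hp.ne_zero
    obtain ⟨u, hu⟩ := hu
    set θ : 𝓞 N := ξ * ((u⁻¹ : (𝓞 N)ˣ) : 𝓞 N) with hθ
    have e1 : η * θ = ξ := by
      rw [hθ, ← hu]
      calc (u : 𝓞 N) * (ξ * ((u⁻¹ : (𝓞 N)ˣ) : 𝓞 N)) = ξ * ((u : 𝓞 N) * ((u⁻¹ : (𝓞 N)ˣ) : 𝓞 N)) := by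
            ring
        _ = ξ := by rw [Units.mul_inv, mul_one]
    have e2 : θ ^ p = 1 := by
      have h1 : (η * θ) ^ p = 1 := by rw [e1]; exact hξ
      rwa [mul_pow, hη, one_mul] at h1
    have e3 : θ ≠ 1 := by
      intro h1
      rw [h1, mul_one] at e1
      exact hne e1
    have e4 : IsPrimitiveRoot θ p := by
      have h1 := IsPrimitiveRoot.orderOf θ
      rwa [orderOf_eq_prime e2 e3] at h1
    have e5 : 1 - θ ∈ w.asIdeal := by
      have : 1 - θ = ((u⁻¹ : (𝓞 N)ˣ) : 𝓞 N) * (η - ξ) := by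
        rw [← e1, ← hu]
        calc 1 - θ = (1 - θ) * (((u⁻¹ : (𝓞 N)ˣ) : 𝓞 N) * (u : 𝓞 N)) := by
              rw [Units.inv_mul, mul_one]
          _ = _ := by ring
      rw [this]
      exact w.asIdeal.mul_mem_left _ hm
    exact w.asIdeal.mem_of_dvd (Y261.WQ.p_dvd e4) e5
  set M := max (v X) (v Y) with hM
  have hMne : M ≠ 0 := by
    intro h0
    have h1 : v Y ≤ 0 := by
      rw [← h0]
      exact le_max_right _ _
    exact vne Y hY (le_zero_iff.1 h1)
  have hle : ∀ η : 𝓞 N, η ^ p = 1 → v (X + η * Y) ≤ M := by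
    intro η hη
    refine (vadd _ _).trans ?_
    rw [vmul, vunit η hη, one_mul]
  have htwo : ∀ η ξ : 𝓞 N, η ^ p = 1 → ξ ^ p = 1 → η ≠ ξ → v (X + η * Y) < M →
      v (X + ξ * Y) = M := by
    intro η ξ hη hξ hne hlt
    apply le_antisymm (hle ξ hξ)
    rw [hM]
    have h1 : v Y ≤ max (v (X + η * Y)) (v (X + ξ * Y)) := by
      have e : v Y = v ((X + η * Y) - (X + ξ * Y)) := by
        have : (X + η * Y) - (X + ξ * Y) = (η - ξ) * Y := by ring
        rw [this, vmul, vdiff η ξ hη hξ hne, one_mul]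
      rw [e]
      exact vsub _ _
    have h2 : v X ≤ max (v (X + η * Y)) (v (X + ξ * Y)) := by
      have e : v X = v (η * (X + ξ * Y) - ξ * (X + η * Y)) := by
        have : η * (X + ξ * Y) - ξ * (X + η * Y) = (η - ξ) * X := by ring
        rw [this, vmul, vdiff η ξ hη hξ hne, one_mul]
      rw [e]
      refine (vsub _ _).trans ?_
      rw [vmul, vmul, vunit η hη, vunit ξ hξ, one_mul, one_mul, max_comm]
    have h3 : M ≤ max (v (X + η * Y)) (v (X + ξ * Y)) := max_le h2 h1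
    rcases le_max_iff.1 h3 with h4 | h4
    · exact absurd hlt (not_lt.2 h4)
    · exact h4
  obtain ⟨μ, hμ⟩ : ∃ μ : ℤ, M = WithZero.exp μ :=
    ⟨WithZero.log M, (WithZero.exp_log hMne).symm⟩
  obtain ⟨ζ, hζ⟩ : ∃ ζ : ℤ, v Z = WithZero.exp ζ :=
    ⟨WithZero.log (v Z), (WithZero.exp_log (vne Z hZ)).symm⟩
  refine ⟨μ, fun η hη => ?_⟩
  by_cases hlt : v (X + η * Y) < M
  · refine ⟨ζ - μ, ?_⟩
    set S : Finset (𝓞 N) := nthRootsFinset p (1 : 𝓞 N) with hS
    have hηS : η ∈ S := (mem_nthRootsFinset hp.pos 1).2 hη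
    have hprod : ∏ ξ ∈ S, (X + ξ * Y) = -Z ^ p := by
      rw [← hz.pow_add_pow_eq_prod_add_mul X Y hodd]
      linear_combination h
    have hval : ∏ ξ ∈ S, v (X + ξ * Y) = v Z ^ p := by
      have e1 : v (∏ ξ ∈ S, (X + ξ * Y)) = ∏ ξ ∈ S, v (X + ξ * Y) := by
        simp only [hv, map_prod]
      rw [← e1, hprod]
      simp only [hv]
      rw [map_neg, Valuation.map_neg, map_pow, map_pow]
    rw [← Finset.mul_prod_erase S _ hηS] at hval
    have hrest : ∏ ξ ∈ S.erase η, v (X + ξ * Y) = M ^ (p - 1) := by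
      have hc : (S.erase η).card = p - 1 := by
        rw [Finset.card_erase_of_mem hηS, hS, hz.card_nthRootsFinset]
      rw [← hc, ← Finset.prod_const]
      refine Finset.prod_congr rfl fun ξ hξ => ?_
      rw [Finset.mem_erase] at hξ
      exact htwo η ξ hη ((mem_nthRootsFinset hp.pos 1).1 hξ.2) (Ne.symm hξ.1) hlt
    rw [hrest, hμ, hζ] at hval
    have hne0 : v (X + η * Y) ≠ 0 := by
      intro h0
      rw [h0, zero_mul] at hval
      exact (pow_ne_zero p WithZero.exp_ne_zero) hval.symm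
    obtain ⟨a, ha⟩ : ∃ a : ℤ, v (X + η * Y) = WithZero.exp a :=
      ⟨WithZero.log _, (WithZero.exp_log hne0).symm⟩
    change v (X + η * Y) = _
    rw [ha, ← WithZero.exp_nsmul, ← WithZero.exp_nsmul, ← WithZero.exp_add,
      WithZero.exp_inj] at hval
    rw [ha, WithZero.exp_inj]
    simp only [nsmul_eq_mul] at hval
    rw [Nat.cast_sub hp.one_le, Nat.cast_one] at hval
    linear_combination hval
  · refine ⟨0, ?_⟩
    rw [mul_zero, add_zero, ← hμ]
    exact le_antisymm (hle η hη) (not_lt.1 hlt)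

end

section

variable {p : ℕ} [Fact p.Prime] {E : Type} [Field E] [NumberField E]
  {K N : Type} [Field K] [NumberField K] [Field N] [NumberField N]

theorem fldL (hp2 : p ≠ 2) (c : Cyc p E) (i : E →+* N)
    (hD : DnL p E N i) (X Y Z : 𝓞 K) (hY : Y ≠ 0) (hZ : Z ≠ 0)
    (h : X ^ p + Y ^ p + Z ^ p = 0)
    (f : Polynomial ℤ) (hf : f.map (Int.castRingHom (𝓞 N)) = nrmP K N X Y) :
    aeval c.z f ≠ 0 ∧ f.eval 1 ≠ 0 ∧
    ∀ P : HeightOneSpectrum (𝓞 E), ((p : ℕ) : 𝓞 E) ∉ P.asIdeal → ∃ m : ℤ,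
      P.valuation E (aeval c.z f) =
      P.valuation E ((f.eval 1 : ℤ) : E) * WithZero.exp ((p : ℤ) * m) := by
  classical
  have hpp : p.Prime := Fact.out
  have hodd : Odd p := hpp.odd_of_ne_two hp2
  have hzint : IsIntegral ℤ (i c.z) := by
    have h1 : (i c.z) ^ p = 1 := by rw [← map_pow, c.prim.pow_eq_one, map_one]
    exact ⟨Polynomial.X ^ p - 1, Polynomial.monic_X_pow_sub_C 1 hpp.ne_zero, by simp [h1]⟩
  obtain ⟨zN, hzN⟩ : ∃ w : 𝓞 N, (w : N) = i c.z := ⟨⟨i c.z, hzint⟩, rfl⟩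
  have hzprim : IsPrimitiveRoot zN p := by
    apply IsPrimitiveRoot.of_map_of_injective (f := algebraMap (𝓞 N) N) _
      RingOfIntegers.coe_injective
    have h1 : algebraMap (𝓞 N) N zN = i c.z := hzN
    rw [h1]
    exact c.prim.map_of_injective i.injective
  have keyq : ∀ τ : K →+* N, RingOfIntegers.mapRingHom τ X ^ p +
      RingOfIntegers.mapRingHom τ Y ^ p + RingOfIntegers.mapRingHom τ Z ^ p = 0 := by
    intro τ
    rw [← map_pow, ← map_pow, ← map_pow, ← map_add, ← map_add, h, map_zero]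
  have hY' : ∀ τ : K →+* N, RingOfIntegers.mapRingHom τ Y ≠ 0 := fun τ h0 =>
    hY (mapRingHom_inj τ (by rw [h0, map_zero]))
  have hZ' : ∀ τ : K →+* N, RingOfIntegers.mapRingHom τ Z ≠ 0 := fun τ h0 =>
    hZ (mapRingHom_inj τ (by rw [h0, map_zero]))
  -- the factors are not zero
  have hne : ∀ (τ : K →+* N) (η : 𝓞 N), η ^ p = 1 →
      RingOfIntegers.mapRingHom τ X + η * RingOfIntegers.mapRingHom τ Y ≠ 0 := by
    intro τ η hη h0
    have h1 : RingOfIntegers.mapRingHom τ X = -(η * RingOfIntegers.mapRingHom τ Y) :=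
      eq_neg_of_add_eq_zero_left h0
    have h2 := keyq τ
    rw [h1, hodd.neg_pow, mul_pow, hη, one_mul, neg_add_cancel, zero_add] at h2
    exact hZ' τ ((pow_eq_zero_iff hpp.ne_zero).1 h2)
  have eU : ((∏ τ : K →+* N, (RingOfIntegers.mapRingHom τ X +
      zN * RingOfIntegers.mapRingHom τ Y) : 𝓞 N) : N) = i (aeval c.z f) := by
    rw [← eval_f hf zN]
    have e1 : algebraMap (𝓞 N) N (aeval zN f) = aeval (algebraMap (𝓞 N) N zN) f :=
      (aeval_algebraMap_apply N zN f).symm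
    have e2 : algebraMap (𝓞 N) N zN = i c.z := hzN
    rw [e2] at e1
    refine e1.trans ?_
    rw [aeval_def, aeval_def, hom_eval₂]
    congr 1
    exact RingHom.ext_int _ _
  have eV : ((∏ τ : K →+* N, (RingOfIntegers.mapRingHom τ X +
      1 * RingOfIntegers.mapRingHom τ Y) : 𝓞 N) : N) = i ((f.eval 1 : ℤ) : E) := by
    have e0 : (∏ τ : K →+* N, (RingOfIntegers.mapRingHom τ X +
        1 * RingOfIntegers.mapRingHom τ Y)) = ((f.eval 1 : ℤ) : 𝓞 N) := by
      rw [← eval_f hf (1 : 𝓞 N)]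
      have e2 := aeval_algebraMap_apply (𝓞 N) (1 : ℤ) f
      rw [map_one] at e2
      rw [e2]
      rfl
    rw [e0, map_intCast]
    exact map_intCast (algebraMap (𝓞 N) N) _
  have hU0 : (∏ τ : K →+* N, (RingOfIntegers.mapRingHom τ X +
      zN * RingOfIntegers.mapRingHom τ Y)) ≠ 0 :=
    Finset.prod_ne_zero_iff.2 fun τ _ => hne τ zN hzprim.pow_eq_one
  have hV0 : (∏ τ : K →+* N, (RingOfIntegers.mapRingHom τ X +
      1 * RingOfIntegers.mapRingHom τ Y)) ≠ 0 :=
    Finset.prod_ne_zero_iff.2 fun τ _ => hne τ 1 (one_pow p)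
  have hu0 : aeval c.z f ≠ 0 := by
    intro h0
    rw [h0, map_zero] at eU
    exact hU0 (RingOfIntegers.coe_injective (by rw [map_zero]; exact eU))
  have hv0 : ((f.eval 1 : ℤ) : E) ≠ 0 := by
    intro h0
    rw [h0, map_zero] at eV
    exact hV0 (RingOfIntegers.coe_injective (by rw [map_zero]; exact eV))
  refine ⟨hu0, fun h0 => hv0 (by rw [h0, Int.cast_zero]), ?_⟩
  intro P hP
  obtain ⟨w, e, hw, hpe, hwe⟩ := hD P hP
  choose μ m hm using fun τ : K →+* N => fac_val w hw hp2 hzprim (hY' τ) (hZ' τ) (keyq τ)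
  have hval : ∀ (η : 𝓞 N) (hη : η ^ p = 1), w.valuation N ((∏ τ : K →+* N,
      (RingOfIntegers.mapRingHom τ X + η * RingOfIntegers.mapRingHom τ Y) : 𝓞 N) : N) =
      WithZero.exp (∑ τ : K →+* N, (μ τ + p * m τ η hη)) := by
    intro η hη
    have e0 : w.valuation N ((∏ τ : K →+* N,
        (RingOfIntegers.mapRingHom τ X + η * RingOfIntegers.mapRingHom τ Y) : 𝓞 N) : N) =
        ∏ τ : K →+* N, w.valuation N ((RingOfIntegers.mapRingHom τ X +
          η * RingOfIntegers.mapRingHom τ Y : 𝓞 N) : N) := by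
      change w.valuation N (algebraMap (𝓞 N) N _) = _
      rw [map_prod, map_prod]
    rw [e0, Finset.prod_congr rfl fun τ _ => hm τ η hη, prod_exp]
  have h1 := hval zN hzprim.pow_eq_one
  have h2 := hval 1 (one_pow p)
  rw [eU, hwe] at h1
  rw [eV, hwe] at h2
  obtain ⟨x, hx⟩ : ∃ x : ℤ, P.valuation E (aeval c.z f) = WithZero.exp x :=
    ⟨WithZero.log _, (WithZero.exp_log ((Valuation.ne_zero_iff _).2 hu0)).symm⟩
  obtain ⟨y, hy⟩ : ∃ y : ℤ, P.valuation E ((f.eval 1 : ℤ) : E) = WithZero.exp y :=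
    ⟨WithZero.log _, (WithZero.exp_log ((Valuation.ne_zero_iff _).2 hv0)).symm⟩
  rw [hx, ← WithZero.exp_nsmul, WithZero.exp_inj] at h1
  rw [hy, ← WithZero.exp_nsmul, WithZero.exp_inj] at h2
  simp only [nsmul_eq_mul, Finset.sum_add_distrib, ← Finset.mul_sum] at h1 h2
  have h3 : (p : ℤ) ∣ e * (x - y) := by
    refine ⟨∑ τ, m τ zN hzprim.pow_eq_one - ∑ τ, m τ 1 (one_pow p), ?_⟩
    linear_combination h1 - h2
  have hpz : Prime (p : ℤ) := Nat.prime_iff_prime_int.1 hpp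
  have h4 : (p : ℤ) ∣ x - y := by
    rcases hpz.dvd_or_dvd h3 with h5 | h5
    · exact absurd (Int.natCast_dvd_natCast.1 h5) hpe
    · exact h5
  obtain ⟨k, hk⟩ := h4
  refine ⟨k, ?_⟩
  rw [hx, hy, ← WithZero.exp_add]
  congr 1
  linarith

end

end Pool.Agent.Q279.FL
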