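import Pool.Agent.Q279.FL.Red

/-!
# The factorization of the norm polynomial modulo `p`
-/

set_option autoImplicit false

namespace Pool.Agent.Q279.FL

open Polynomial Pool.Agent.Y546.WQ

section

variable {p : ℕ} [Fact p.Prime] {F : Type} [Field F] [Algebra (ZMod p) F]
  {ι : Type} [Fintype ι]

/-- the indices of the triples without zero -/
noncomputable def T1 (x y z : ι → F) : Finset ι := by
  classical
  exact Finset.univ.filter fun i => x i ≠ 0 ∧ y i ≠ 0 ∧ z i ≠ 0

theorem mem_T1 (x y z : ι → F) (i : ι) : i ∈ T1 x y z ↔ x i ≠ 0 ∧ y i ≠ 0 ∧ z i ≠ 0 := by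
  classical
  unfold T1
  rw [Finset.mem_filter]
  exact ⟨fun h => h.2, fun h => ⟨Finset.mem_univ _, h⟩⟩

theorem factor (x y z : ι → F) (hs : ∀ i, x i + y i + z i = 0)
    (hn : ∀ i, ¬ (x i = 0 ∧ y i = 0 ∧ z i = 0)) (fb : Polynomial (ZMod p))
    (hfb : fb.map (algebraMap (ZMod p) F) = ∏ i, (C (x i) + X * C (y i))) :
    ∃ (a₀ c₀ : ℕ) (G : Polynomial (ZMod p)) (κ : F), κ ≠ 0 ∧ fb = X ^ a₀ * (X - 1) ^ c₀ * G ∧
      G.map (algebraMap (ZMod p) F) = C κ * ∏ i ∈ T1 x y z, (C (x i) + X * C (y i)) ∧
      a₀ + c₀ + (T1 x y z).card ≤ Fintype.card ι := by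
  classical
  -- the product over a set of indices
  have key : ∀ s : Finset ι, ∃ (a₀ c₀ : ℕ) (κ : F), κ ≠ 0 ∧
      ∏ i ∈ s, (C (x i) + X * C (y i)) = (X ^ a₀ * (X - 1) ^ c₀) *
        (C κ * ∏ i ∈ s.filter (fun i => i ∈ T1 x y z), (C (x i) + X * C (y i))) ∧
      a₀ + c₀ + (s.filter (fun i => i ∈ T1 x y z)).card ≤ s.card := by
    intro s
    induction s using Finset.induction_on with
    | empty => exact ⟨0, 0, 1, one_ne_zero, by simp, by simp⟩
    | insert j s hj ih =>
      obtain ⟨a, c, κ, hκ, h1, h2⟩ := ih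
      rw [Finset.prod_insert hj, Finset.card_insert_of_notMem hj, Finset.filter_insert, h1]
      by_cases hT : j ∈ T1 x y z
      · have hj' : j ∉ s.filter (fun i => i ∈ T1 x y z) := fun h => hj (Finset.mem_filter.1 h).1
        rw [if_pos hT, Finset.prod_insert hj', Finset.card_insert_of_notMem hj']
        exact ⟨a, c, κ, hκ, by ring, by omega⟩
      · rw [if_neg hT]
        rw [mem_T1] at hT
        have hsj := hs j
        by_cases hx : x j = 0
        · have hy : y j ≠ 0 := by
            intro hy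
            apply hn j
            rw [hx, hy] at hsj
            exact ⟨hx, hy, by simpa using hsj⟩
          refine ⟨a + 1, c, κ * y j, mul_ne_zero hκ hy, ?_, by omega⟩
          rw [hx, C_0, zero_add, C_mul]
          ring
        · by_cases hy : y j = 0
          · refine ⟨a, c, κ * x j, mul_ne_zero hκ hx, ?_, by omega⟩
            rw [hy, C_0, mul_zero, add_zero, C_mul]
            ring
          · have hz : z j = 0 := by
              by_contra hz
              exact hT ⟨hx, hy, hz⟩
            have hxy : x j = -y j := by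
              rw [hz, add_zero] at hsj
              exact eq_neg_of_add_eq_zero_left hsj
            refine ⟨a, c + 1, κ * y j, mul_ne_zero hκ hy, ?_, by omega⟩
            rw [hxy, C_neg, C_mul]
            ring
  obtain ⟨a₀, c₀, κ, hκ, h1, h2⟩ := key Finset.univ
  have hf : (Finset.univ.filter fun i => i ∈ T1 x y z) = T1 x y z := by
    ext i
    simp
  rw [hf, ← hfb] at h1
  rw [hf] at h2
  have hdvd : X ^ a₀ * (X - 1) ^ c₀ ∣ fb := by
    rw [← Polynomial.map_dvd_map' (algebraMap (ZMod p) F)]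
    refine ⟨C κ * ∏ i ∈ T1 x y z, (C (x i) + X * C (y i)), ?_⟩
    rw [h1, Polynomial.map_mul, Polynomial.map_pow, Polynomial.map_pow, Polynomial.map_sub,
      Polynomial.map_X, Polynomial.map_one]
  obtain ⟨G, hG⟩ := hdvd
  refine ⟨a₀, c₀, G, κ, hκ, hG, ?_, ?_⟩
  · have h3 := congrArg (Polynomial.map (algebraMap (ZMod p) F)) hG
    rw [h1, Polynomial.map_mul, Polynomial.map_mul, Polynomial.map_pow, Polynomial.map_pow,
      Polynomial.map_sub, Polynomial.map_X, Polynomial.map_one] at h3
    have h4 : (X ^ a₀ * (X - 1) ^ c₀ : Polynomial F) ≠ 0 := by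
      refine mul_ne_zero (pow_ne_zero _ X_ne_zero) (pow_ne_zero _ ?_)
      have := X_sub_C_ne_zero (1 : F)
      rwa [C_1] at this
    exact (mul_left_cancel₀ h4 h3).symm
  · rw [← Finset.card_univ]
    exact h2

/-- the properties of the factor -/
theorem factor_prop (x y z : ι → F) (hs : ∀ i, x i + y i + z i = 0) (G : Polynomial (ZMod p))
    (κ : F) (hκ : κ ≠ 0) (hG : G.map (algebraMap (ZMod p) F) =
      C κ * ∏ i ∈ T1 x y z, (C (x i) + X * C (y i))) :
    G.natDegree = (T1 x y z).card ∧ G.coeff 0 ≠ 0 ∧ G.coeff (T1 x y z).card ≠ 0 ∧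
      G.eval 1 ≠ 0 := by
  classical
  have hinj : Function.Injective (algebraMap (ZMod p) F) := (algebraMap (ZMod p) F).injective
  have hne : ∀ i ∈ T1 x y z, x i ≠ 0 ∧ y i ≠ 0 ∧ z i ≠ 0 := fun i hi => (mem_T1 x y z i).1 hi
  have hdeg : ∀ s : Finset ι, s ⊆ T1 x y z → (∏ i ∈ s, (C (x i) + X * C (y i))).natDegree = s.card := by
    intro s hsT
    rw [natDegree_prod]
    · rw [Finset.card_eq_sum_ones]
      refine Finset.sum_congr rfl fun i hi => ?_
      have h1 : C (x i) + X * C (y i) = C (y i) * X + C (x i) := by ring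
      rw [h1]
      exact natDegree_linear (hne i (hsT hi)).2.1
    · intro i hi h0
      have h1 := congrArg (Polynomial.eval 0) h0
      simp only [eval_add, eval_C, eval_mul, eval_X, zero_mul, add_zero, eval_zero] at h1
      exact (hne i (hsT hi)).1 h1
  have hd : G.natDegree = (T1 x y z).card := by
    rw [← natDegree_map_eq_of_injective hinj, hG, natDegree_C_mul hκ]
    exact hdeg _ (Finset.Subset.refl _)
  refine ⟨hd, ?_, ?_, ?_⟩
  · intro h0
    have h1 : (G.map (algebraMap (ZMod p) F)).eval 0 = 0 := by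
      rw [← coeff_zero_eq_eval_zero, coeff_map, h0, map_zero]
    rw [hG, eval_mul, eval_C, eval_prod] at h1
    rcases mul_eq_zero.1 h1 with h2 | h2
    · exact hκ h2
    · obtain ⟨i, hi, h3⟩ := Finset.prod_eq_zero_iff.1 h2
      simp only [eval_add, eval_C, eval_mul, eval_X, zero_mul, add_zero] at h3
      exact (hne i hi).1 h3
  · intro h0
    rw [← hd] at h0
    have h1 : G = 0 := leadingCoeff_eq_zero.1 h0
    rw [h1, Polynomial.map_zero] at hG
    have h2 := hG.symm
    rcases mul_eq_zero.1 h2 with h3 | h3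
    · exact hκ (C_eq_zero.1 h3)
    · obtain ⟨i, hi, h4⟩ := Finset.prod_eq_zero_iff.1 h3
      have h5 := congrArg (Polynomial.eval 0) h4
      simp only [eval_add, eval_C, eval_mul, eval_X, zero_mul, add_zero, eval_zero] at h5
      exact (hne i hi).1 h5
  · intro h0
    have h1 : (G.map (algebraMap (ZMod p) F)).eval 1 = 0 := by
      rw [← map_one (algebraMap (ZMod p) F), eval_map, eval₂_hom, h0, map_zero]
    rw [hG, eval_mul, eval_C, eval_prod] at h1
    rcases mul_eq_zero.1 h1 with h2 | h2
    · exact hκ h2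
    · obtain ⟨i, hi, h3⟩ := Finset.prod_eq_zero_iff.1 h2
      simp only [eval_add, eval_C, eval_mul, eval_X, one_mul] at h3
      have h4 := hs i
      rw [h3, zero_add] at h4
      exact (hne i hi).2.2 h4

/-- from a palindromic polynomial to an identity of products -/
theorem pal_prod (x y z : ι → F) (G : Polynomial (ZMod p))
    (κ : F) (hκ : κ ≠ 0) (hG : G.map (algebraMap (ZMod p) F) =
      C κ * ∏ i ∈ T1 x y z, (C (x i) + X * C (y i))) (hd : G.natDegree ≤ (T1 x y z).card)
    (hpal : G.reflect (T1 x y z).card = G) (t : F) (ht : t ≠ 0) :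
    ∏ i ∈ T1 x y z, (x i + t * y i) = ∏ i ∈ T1 x y z, (y i + t * x i) := by
  classical
  have hev : ∀ s : F, eval₂ (algebraMap (ZMod p) F) s G = κ * ∏ i ∈ T1 x y z, (x i + s * y i) := by
    intro s
    rw [← eval_map, hG, eval_mul, eval_C, eval_prod]
    congr 1
    refine Finset.prod_congr rfl fun i _ => ?_
    simp only [eval_add, eval_C, eval_mul, eval_X]
  let _ : Invertible t := invertibleOfNonzero ht
  have h1 := eval₂_reflect_mul_pow (algebraMap (ZMod p) F) t (T1 x y z).card G hd
  rw [hpal, hev, hev, invOf_eq_inv, mul_assoc] at h1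
  have h2 := mul_left_cancel₀ hκ h1
  rw [← h2, ← Finset.prod_const, ← Finset.prod_mul_distrib]
  refine Finset.prod_congr rfl fun i _ => ?_
  field_simp
  ring

end

end Pool.Agent.Q279.FL
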