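import Pool.Agent.Q279.FL.Loc
import Pool.Agent.Q279.FL.Res
import Pool.Agent.Q264.FB.Main

/-!
# The residues of an arbitrary solution at the primes above `p` not dividing `x y z`
-/

set_option autoImplicit false

namespace Pool.Agent.Q279.FL

open NumberField IsDedekindDomain Polynomial Pool.Agent.Y546.WQ

/-- a solution without common factor at the primes above `p` -/
structure Gen (p : ℕ) (K : Type) [Field K] [NumberField K] (X Y Z : 𝓞 K) : Prop where
  X0 : X ≠ 0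
  Y0 : Y ≠ 0
  Z0 : Z ≠ 0
  eq : X ^ p + Y ^ p + Z ^ p = 0
  cp : ∀ P : Ideal (𝓞 K), P.IsPrime → ((p : ℕ) : 𝓞 K) ∈ P → ¬ (X ∈ P ∧ Y ∈ P ∧ Z ∈ P)

theorem Gen.rot {p : ℕ} {K : Type} [Field K] [NumberField K] {X Y Z : 𝓞 K}
    (h : Gen p K X Y Z) : Gen p K Y Z X where
  X0 := h.Y0
  Y0 := h.Z0
  Z0 := h.X0
  eq := by rw [← h.eq]; ring
  cp := fun P hP hp hh => h.cp P hP hp ⟨hh.2.2, hh.1, hh.2.1⟩

/-- scaling at the primes above `p` -/
theorem prepG {K : Type} [Field K] [NumberField K] {p : ℕ} (hp : p.Prime) {x y z : K}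
    (hx : x ≠ 0) (hy : y ≠ 0) (hz : z ≠ 0) :
    ∃ (a : K) (X Y Z : 𝓞 K), a ≠ 0 ∧ algebraMap (𝓞 K) K X = a * x ∧
      algebraMap (𝓞 K) K Y = a * y ∧ algebraMap (𝓞 K) K Z = a * z ∧ X ≠ 0 ∧ Y ≠ 0 ∧ Z ≠ 0 ∧
      (∀ P : Ideal (𝓞 K), P.IsPrime → ((p : ℕ) : 𝓞 K) ∈ P → ¬ (X ∈ P ∧ Y ∈ P ∧ Z ∈ P)) ∧
      ∀ v : HeightOneSpectrum (𝓞 K), ((p : ℕ) : 𝓞 K) ∈ v.asIdeal →
        ((v.valuation K x = v.valuation K y ∧ v.valuation K y = v.valuation K z) ↔
          (X ∉ v.asIdeal ∧ Y ∉ v.asIdeal ∧ Z ∉ v.asIdeal)) := by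
  have hp0 : p ≠ 0 := hp.ne_zero
  obtain ⟨T, hT⟩ := finite_primes (K := K) p hp0
  obtain ⟨a, X, Y, Z, hXa, hYa, hZa, hn⟩ := scaleT (y := y) (z := z) hx T
  have hne : ∀ (P : Ideal (𝓞 K)), P.IsPrime → ((p : ℕ) : 𝓞 K) ∈ P →
      ∃ h0 : P ≠ ⊥, ∀ hP : P.IsPrime, (⟨P, hP, h0⟩ : HeightOneSpectrum (𝓞 K)) ∈ T := by
    intro P hP hm
    have h0 : P ≠ ⊥ := by
      rintro rfl
      rw [Ideal.mem_bot] at hm
      have : (p : ℕ) = 0 := by exact_mod_cast hm
      exact hp0 this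
    exact ⟨h0, fun hP' => hT _ hm⟩
  have hcp : ∀ P : Ideal (𝓞 K), P.IsPrime → ((p : ℕ) : 𝓞 K) ∈ P →
      ¬ (X ∈ P ∧ Y ∈ P ∧ Z ∈ P) := by
    intro P hP hpP
    obtain ⟨h0, h4⟩ := hne P hP hpP
    exact hn _ (h4 hP)
  obtain ⟨M, hM, hMp⟩ := exists_above (K := K) p hp
  have ha : a ≠ 0 := by
    rintro rfl
    rw [zero_mul] at hXa hYa hZa
    have h1 : X = 0 := RingOfIntegers.coe_injective (by rw [map_zero]; exact hXa)
    have h2 : Y = 0 := RingOfIntegers.coe_injective (by rw [map_zero]; exact hYa)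
    have h3 : Z = 0 := RingOfIntegers.coe_injective (by rw [map_zero]; exact hZa)
    apply hcp M hM hMp
    rw [h1, h2, h3]
    exact ⟨zero_mem _, zero_mem _, zero_mem _⟩
  have hX0 : X ≠ 0 := by
    rintro rfl
    rw [map_zero] at hXa
    exact mul_ne_zero ha hx hXa.symm
  have hY0 : Y ≠ 0 := by
    rintro rfl
    rw [map_zero] at hYa
    exact mul_ne_zero ha hy hYa.symm
  have hZ0 : Z ≠ 0 := by
    rintro rfl
    rw [map_zero] at hZa
    exact mul_ne_zero ha hz hZa.symm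
  refine ⟨a, X, Y, Z, ha, hXa, hYa, hZa, hX0, hY0, hZ0, hcp, ?_⟩
  intro v hv
  have hva : v.valuation K a ≠ 0 := (Valuation.ne_zero_iff _).2 ha
  have e : ∀ (w : K) (W : 𝓞 K), algebraMap (𝓞 K) K W = a * w →
      (W ∈ v.asIdeal ↔ v.valuation K a * v.valuation K w < 1) := by
    intro w W hW
    rw [← map_mul, ← hW]
    exact (v.valuation_lt_one_iff_mem (K := K) W).symm
  have e' : ∀ (w : K) (W : 𝓞 K), algebraMap (𝓞 K) K W = a * w → W ∉ v.asIdeal →
      v.valuation K a * v.valuation K w = 1 := by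
    intro w W hW hWv
    rw [← map_mul, ← hW]
    exact val_one v W hWv
  constructor
  · rintro ⟨h1, h2⟩
    have h5 := hcp v.asIdeal v.isPrime hv
    have e1 : X ∈ v.asIdeal ↔ Y ∈ v.asIdeal := by rw [e x X hXa, e y Y hYa, h1]
    have e2 : Y ∈ v.asIdeal ↔ Z ∈ v.asIdeal := by rw [e y Y hYa, e z Z hZa, h2]
    tauto
  · rintro ⟨h1, h2, h3⟩
    have e1 := e' x X hXa h1
    have e2 := e' y Y hYa h2
    have e3 := e' z Z hZa h3
    exact ⟨mul_left_cancel₀ hva (e1.trans e2.symm), mul_left_cancel₀ hva (e2.trans e3.symm)⟩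

/-- the condition on the irregular indices -/
def RegC (p m : ℕ) : Prop :=
  (2 * m + 3 ≤ p ∧ ∀ k ∈ irr p, k + 2 * m + 1 < p) ∨
    m * (((irr p).card + 1) * ((irr p).card + 2)) + 3 ≤ p

theorem RegC.le {p m : ℕ} (h : RegC p m) : 2 * m + 3 ≤ p := by
  rcases h with h | h
  · exact h.1
  · have e : 2 ≤ ((irr p).card + 1) * ((irr p).card + 2) := by nlinarith [(irr p).card.zero_le]
    have := Nat.mul_le_mul_left m e
    omega

section

variable {p : ℕ} [Fact p.Prime]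

/-- a polynomial with the relations is palindromic -/
theorem pal_of_rel (m d k₀ : ℕ) (G : Polynomial (ZMod p)) (hreg : RegC p m)
    (hdk : 2 * d + k₀ + 1 ≤ m + m + p) (hk : p ≤ k₀ + 1 + (m - d)) (hkp : k₀ + 1 ≤ p) (hdm : d ≤ m)
    (hG : G.natDegree = d) (h0 : G.coeff 0 ≠ 0) (hd : G.coeff d ≠ 0) (h1 : G.eval 1 ≠ 0)
    (hrel : RelT p k₀ G) : G.reflect d = G := by
  have hpp : p.Prime := Fact.out
  have h5 := hreg.le
  rcases Nat.eq_zero_or_pos d with hd0 | hd0
  · subst hd0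
    have hGC := Polynomial.eq_C_of_natDegree_eq_zero hG
    rw [hGC]
    simp
  rcases hreg with h | h
  · refine polbaT p d k₀ G (by omega) hkp hG.le h0 hd h1 hrel (fun j hj h3j hjm => ?_) (by omega)
    apply reg_of Y61.WQ.mainBER j hj h3j (by omega)
    intro hk'
    have := h.2 _ hk'
    omega
  · refine poleT Y286.WQ.mainPOLE2 p d k₀ G ((irr p).image fun k => p - k) hkp hd0 hG.le h0 hd h1
      hrel ?_ ?_
    · intro j hj h3j hjp hjJ
      apply reg_of Y61.WQ.mainBER j hj h3j hjp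
      intro hk'
      apply hjJ
      rw [Finset.mem_image]
      exact ⟨p - j, hk', by omega⟩
    · have e : ((irr p).image fun k => p - k).card ≤ (irr p).card := Finset.card_image_le
      have e2 : (((irr p).image fun k => p - k).card + 1) *
          (((irr p).image fun k => p - k).card + 2) ≤ ((irr p).card + 1) * ((irr p).card + 2) :=
        Nat.mul_le_mul (by omega) (by omega)
      have e3 : d * ((((irr p).image fun k => p - k).card + 1) *
          (((irr p).image fun k => p - k).card + 2)) ≤ d * (((irr p).card + 1) *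
            ((irr p).card + 2)) := Nat.mul_le_mul_left _ e2
      have e4 : 2 ≤ ((irr p).card + 1) * ((irr p).card + 2) := by
        nlinarith [(irr p).card.zero_le]
      obtain ⟨q, hq⟩ : ∃ q, m = d + q := ⟨m - d, by omega⟩
      have e5 : m * (((irr p).card + 1) * ((irr p).card + 2)) =
          d * (((irr p).card + 1) * ((irr p).card + 2)) +
            q * (((irr p).card + 1) * ((irr p).card + 2)) := by
        rw [hq]
        ring
      have e6 : q * 2 ≤ q * (((irr p).card + 1) * ((irr p).card + 2)) :=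
        Nat.mul_le_mul_left _ e4
      omega

variable {E K N F : Type} [Field E] [NumberField E] [Field K] [NumberField K] [Field N]
  [NumberField N] [Field F] [Algebra (ZMod p) F]

/-- the norm polynomial of the residues at the primes above `p` which do not divide `x y z` is
palindromic -/
theorem palT (c : Cyc p E) (i : E →+* N) (hD : DnL p E N i)
    (hcard : Nat.card (K →+* N) = Module.finrank ℚ K) (hreg : RegC p (Module.finrank ℚ K))
    (Q : Ideal (𝓞 N)) (hQ : Q.IsPrime) (hQp : ((p : ℕ) : 𝓞 N) ∈ Q) (ψ : 𝓞 N →+* F)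
    (hψ : ∀ w : 𝓞 N, ψ w = 0 ↔ w ∈ Q) {X Y Z : 𝓞 K} (hs : Gen p K X Y Z) (t : F) (ht : t ≠ 0) :
    ∏ τ ∈ T1 (fun τ : K →+* N => ψ (RingOfIntegers.mapRingHom τ X))
      (fun τ => ψ (RingOfIntegers.mapRingHom τ Y)) (fun τ => ψ (RingOfIntegers.mapRingHom τ Z)),
        (ψ (RingOfIntegers.mapRingHom τ X) + t * ψ (RingOfIntegers.mapRingHom τ Y)) =
    ∏ τ ∈ T1 (fun τ : K →+* N => ψ (RingOfIntegers.mapRingHom τ X))
      (fun τ => ψ (RingOfIntegers.mapRingHom τ Y)) (fun τ => ψ (RingOfIntegers.mapRingHom τ Z)),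
        (ψ (RingOfIntegers.mapRingHom τ Y) + t * ψ (RingOfIntegers.mapRingHom τ X)) := by
  classical
  have hpp : p.Prime := Fact.out
  have hm := Module.finrank_pos (R := ℚ) (M := K)
  have h5 := hreg.le
  have hp2 : p ≠ 2 := by omega
  set x : (K →+* N) → F := fun τ => ψ (RingOfIntegers.mapRingHom τ X) with hx
  set y : (K →+* N) → F := fun τ => ψ (RingOfIntegers.mapRingHom τ Y) with hy
  set z : (K →+* N) → F := fun τ => ψ (RingOfIntegers.mapRingHom τ Z) with hz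
  have hsum : ∀ τ, x τ + y τ + z τ = 0 := by
    intro τ
    simp only [hx, hy, hz]
    rw [← map_add, ← map_add, hψ, ← map_add, ← map_add]
    exact lin_p hpp (Q.comap (RingOfIntegers.mapRingHom τ)) (hQ.comap _)
      (by rw [Ideal.mem_comap, map_natCast]; exact hQp) hs.eq
  have hnz : ∀ τ, ¬ (x τ = 0 ∧ y τ = 0 ∧ z τ = 0) := by
    rintro τ ⟨h1, h2, h3⟩
    exact hs.cp (Q.comap (RingOfIntegers.mapRingHom τ)) (hQ.comap _)
      (by rw [Ideal.mem_comap, map_natCast]; exact hQp) ⟨(hψ _).1 h1, (hψ _).1 h2, (hψ _).1 h3⟩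
  obtain ⟨f, hdeg, hc0, hcm, hev, hf⟩ := Pool.Agent.Y290.WQ.mainNORM K X Y
  have hf := hf N hcard
  obtain ⟨h1, h2, h3⟩ := fldL hp2 c i hD X Y Z hs.Y0 hs.Z0 hs.eq f hf
  have hfb : (f.map (Int.castRingHom (ZMod p))).map (algebraMap (ZMod p) F) =
      ∏ τ, (C (x τ) + Polynomial.X * C (y τ)) := by
    have e1 : (f.map (Int.castRingHom (ZMod p))).map (algebraMap (ZMod p) F) =
        (f.map (Int.castRingHom (𝓞 N))).map ψ := by
      rw [Polynomial.map_map, Polynomial.map_map]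
      congr 1
      exact RingHom.ext_int _ _
    rw [e1, hf]
    unfold nrmP
    rw [Polynomial.map_prod]
    refine Finset.prod_congr rfl fun τ _ => ?_
    rw [Polynomial.map_add, Polynomial.map_mul, Polynomial.map_C, Polynomial.map_X,
      Polynomial.map_C]
  obtain ⟨a₀, c₀, G, κ, hκ, hfG, hGF, hcd⟩ := factor x y z hsum hnz _ hfb
  obtain ⟨g1, g2, g3, g4⟩ := factor_prop x y z hsum G κ hκ hGF
  have hcardm : Fintype.card (K →+* N) = Module.finrank ℚ K := by
    rw [← hcard, Nat.card_eq_fintype_card]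
  rw [hcardm] at hcd
  have hrel := relT_of aUNITA Y919.WQ.mainLAMA hp2 c f h1 h2 h3 a₀ c₀ G hfG g4 (by omega)
  have hpal := pal_of_rel (Module.finrank ℚ K) (T1 x y z).card (p - 1 - c₀) G hreg (by omega)
    (by omega) (by omega) (by omega) g1 g2 g3 g4 hrel
  exact pal_prod x y z G κ hκ hGF g1.le hpal t ht

end

end Pool.Agent.Q279.FL
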