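import Pool.Agent.Y546.WQ.Stm3
import Pool.Agent.Y275.WQ.COREA
import Pool.Agent.Y587.WQ.POLB
import Pool.Agent.Y590.WQ.POLE
import Pool.Agent.Y780.WQ.POLE1
import Pool.Agent.Y286.WQ.POLE2

/-!
# Palindromic polynomials from relations of lower order

The proofs follow the library files `Y275.WQ.COREA`, `Y510.WQ.POLBA`, `Y780.WQ.POLE1` and
`Y590.WQ.POLE`, with the order `p - 1` of the relations replaced by a smaller number.
-/

set_option autoImplicit false

namespace Pool.Agent.Q279.FL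

open Polynomial Pool.Agent.Y546.WQ

/-- the relations of order `k₀` satisfied by a polynomial -/
def RelT (p : ℕ) [Fact p.Prime] (k₀ : ℕ) (f : Polynomial (ZMod p)) : Prop :=
  ∀ a : ℕ, 0 < a → a + 2 ≤ p → ∃ (i : ℕ) (r : ZMod p), r ≠ 0 ∧
    (X - 1) ^ k₀ ∣ thPa p a f - Polynomial.C r * X ^ i

section core

open Pool.Agent.Y275.WQ

theorem core_T (p : ℕ) [Fact p.Prime] (hp2 : p ≠ 2) (α m s i l k₀ : ℕ)
    (f W : Polynomial (ZMod p)) (r : ZMod p) (hfd : f.natDegree ≤ m) (hu : f.eval 1 ≠ 0)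
    (hr : r ≠ 0) (hth : (X - 1) ^ k₀ ∣ thPa p α f - Polynomial.C r * X ^ i) (hlk : l + 1 ≤ k₀)
    (hUV : X ^ m * f - X ^ s * f.reflect m = (X - 1) ^ l * W) (hw : W.eval 1 ≠ 0) (hl1 : 1 ≤ l)
    (hlp : l + 2 ≤ p) (hl2 : 2 ≤ l)
    {A : Type} [CommRing A] [Algebra (ZMod p) A] (x : A) (hy : (x - 1) ^ (l + 1) = 0)
    (hnz : ∀ c : ZMod p, algebraMap (ZMod p) A c * (x - 1) ^ l = 0 → c = 0) :
    Odd l ∧ hsa p α l = 0 := by
  classical
  have hxp : x ^ p = 1 := by
    have h1 : ((X : Polynomial (ZMod p)) - 1) ^ p = X ^ p - 1 := by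
      rw [sub_pow_char, one_pow]
    have h2 := congrArg (aeval x) h1
    rw [map_pow, map_sub, map_sub, map_pow, aeval_X, map_one] at h2
    have h3 : (x - 1) ^ p = 0 := by
      obtain ⟨c, hc⟩ : ∃ c, p = (l + 1) + c := ⟨p - (l + 1), by omega⟩
      rw [hc, pow_add, hy, zero_mul]
    rw [h3] at h2
    exact (sub_eq_zero.1 h2.symm)
  have hy2 : (x - 1) ^ k₀ = 0 := by
    obtain ⟨c, hc⟩ : ∃ c, k₀ = (l + 1) + c := ⟨k₀ - (l + 1), by omega⟩
    rw [hc, pow_add, hy, zero_mul]
  obtain ⟨z, hz⟩ : ∃ z, z = x ^ (p - 1) := ⟨_, rfl⟩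
  have hzx : z * x = 1 := by
    rw [hz, ← pow_succ, Nat.sub_add_cancel (Fact.out : p.Prime).one_le, hxp]
  have hzp : z ^ p = 1 := by rw [hz, ← pow_mul, mul_comm, pow_mul, hxp, one_pow]
  have hzz : z ^ (p - 1) = x := by
    calc z ^ (p - 1) = z ^ (p - 1) * (z * x) := by rw [hzx, mul_one]
      _ = z ^ (p - 1 + 1) * x := by rw [pow_succ]; ring
      _ = x := by rw [Nat.sub_add_cancel (Fact.out : p.Prime).one_le, hzp, one_mul]
  have hev : ∀ z' : A, z' ^ m * aeval z' f - z' ^ s * aeval z' (f.reflect m) =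
      (z' - 1) ^ l * aeval z' W := by
    intro z'
    have h1 := congrArg (aeval z') hUV
    simpa using h1
  have hrx := refl_eval hxp hfd
  have hrz := refl_eval hzp hfd
  rw [← hz] at hrx
  rw [hzz] at hrz
  have hVe : (f.reflect m).eval 1 = f.eval 1 := by
    have h1 := congrArg (Polynomial.eval 1) hUV
    rw [eval_sub, eval_mul, eval_mul, eval_mul, eval_pow, eval_pow, eval_pow, eval_X, eval_sub,
      eval_X, eval_one, sub_self, zero_pow (by omega), zero_mul, one_pow, one_pow, one_mul,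
      one_mul] at h1
    exact (sub_eq_zero.1 h1).symm
  constructor
  · -- the exponent is odd
    have e1 := hev z
    have e2 := hev x
    rw [hrz] at e1
    rw [hrx] at e2
    have hxm : x ^ m * z ^ m = 1 := by rw [← mul_pow, mul_comm, hzx, one_pow]
    have hxs : x ^ s * z ^ s = 1 := by rw [← mul_pow, mul_comm, hzx, one_pow]
    have e3 : x ^ (2 * m + s) * (z ^ m * aeval z f - z ^ s * (z ^ m * aeval x f)) =
        -(x ^ m * aeval x f - x ^ s * (x ^ m * aeval z f)) := by
      have : x ^ (2 * m + s) * (z ^ m * aeval z f - z ^ s * (z ^ m * aeval x f)) =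
          (x ^ m * z ^ m) * (x ^ m * x ^ s * aeval z f) -
            (x ^ m * z ^ m) * (x ^ s * z ^ s) * (x ^ m * aeval x f) := by ring
      rw [this, hxm, hxs]
      ring
    rw [e1, e2, lead hy] at e3
    have hz1 : (z - 1) ^ l = algebraMap (ZMod p) A (((p - 1 : ℕ) : ZMod p) ^ l) * (x - 1) ^ l := by
      rw [hz]
      exact pow_sub_one hy (p - 1)
    have hcast : (((p - 1 : ℕ) : ZMod p)) = -1 := by
      rw [Nat.cast_sub (Fact.out : p.Prime).one_le, Nat.cast_one, ZMod.natCast_self, zero_sub]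
    rw [hz1, hcast] at e3
    have e4 : (x - 1) ^ l * aeval z W = algebraMap (ZMod p) A (W.eval 1) * (x - 1) ^ l := by
      rw [hz]
      exact lead_pow hy W (p - 1)
    have e5 : (x - 1) ^ l * x ^ (2 * m + s) = (x - 1) ^ l := by
      have h := lead (p := p) hy (X ^ (2 * m + s))
      rwa [map_pow, aeval_X, eval_pow, eval_X, one_pow, map_one, one_mul] at h
    have e6 : algebraMap (ZMod p) A ((-1) ^ l * W.eval 1 + W.eval 1) * (x - 1) ^ l = 0 := by
      have h1 : x ^ (2 * m + s) * (algebraMap (ZMod p) A ((-1) ^ l) * (x - 1) ^ l * aeval z W) =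
          algebraMap (ZMod p) A ((-1) ^ l) * algebraMap (ZMod p) A (W.eval 1) * (x - 1) ^ l := by
        calc x ^ (2 * m + s) * (algebraMap (ZMod p) A ((-1) ^ l) * (x - 1) ^ l * aeval z W) =
            algebraMap (ZMod p) A ((-1) ^ l) * x ^ (2 * m + s) * ((x - 1) ^ l * aeval z W) := by
              ring
          _ = algebraMap (ZMod p) A ((-1) ^ l) * algebraMap (ZMod p) A (W.eval 1) *
              ((x - 1) ^ l * x ^ (2 * m + s)) := by rw [e4]; ring
          _ = _ := by rw [e5]
      rw [h1] at e3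
      rw [map_add, map_mul, add_mul, e3]
      ring
    have h7 := hnz _ e6
    by_contra hodd
    rw [Nat.not_odd_iff_even] at hodd
    rw [hodd.neg_one_pow, one_mul, ← two_mul] at h7
    rcases mul_eq_zero.1 h7 with h8 | h8
    · have h9 : ((2 : ℕ) : ZMod p) = 0 := by exact_mod_cast h8
      rw [ZMod.natCast_eq_zero_iff] at h9
      exact hp2 ((Nat.prime_dvd_prime_iff_eq Fact.out Nat.prime_two).1 h9)
    · exact hw h8
  · -- the sum of powers
    obtain ⟨k, hk⟩ : ∃ k : (ZMod p)ˣ → ℕ, ∀ t, k t = ((t⁻¹ : (ZMod p)ˣ) : ZMod p).val :=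
      ⟨_, fun _ => rfl⟩
    have hkc : ∀ t, ((k t : ℕ) : ZMod p) = ((t⁻¹ : (ZMod p)ˣ) : ZMod p) := by
      intro t
      rw [hk, ZMod.natCast_zmod_val]
    obtain ⟨S, hS⟩ : ∃ S : ℕ, S = ∑ t ∈ hf p α, k t := ⟨_, rfl⟩
    have hthx : ∀ z' : A, (z' - 1) ^ k₀ = 0 →
        ∏ t ∈ hf p α, aeval (z' ^ k t) f = algebraMap (ZMod p) A r * z' ^ i := by
      intro z' hz'
      obtain ⟨Q, hQ⟩ := hth
      have h1 := congrArg (aeval z') hQ
      rw [map_mul, map_pow, map_sub, map_sub, map_mul, aeval_X, map_one, hz', zero_mul, aeval_C,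
        map_pow, aeval_X, thP_eval] at h1
      have h2 := sub_eq_zero.1 h1
      rw [← h2]
      exact Finset.prod_congr rfl fun t _ => by rw [hk]
    have hz0 : (z - 1) ^ k₀ = 0 := by
      rw [hz, ← geom_sum_mul x (p - 1), mul_pow, hy2, mul_zero]
    have hmain := prod_diff (hf p α)
      (fun t => (x ^ k t) ^ m * aeval (x ^ k t) f)
      (fun t => (x ^ k t) ^ s * aeval (x ^ k t) (f.reflect m))
      (fun t => algebraMap (ZMod p) A (W.eval 1 * (k t : ZMod p) ^ l))
      (algebraMap (ZMod p) A (f.eval 1)) ((x - 1) ^ l)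
      (by
        intro t
        have h := lead_pow (p := p) hy (X ^ m * f) (k t)
        rw [map_mul, map_pow, aeval_X, eval_mul, eval_pow, eval_X, one_pow, one_mul] at h
        exact h)
      (by
        intro t
        have h := lead_pow (p := p) hy (X ^ s * f.reflect m) (k t)
        rw [map_mul, map_pow, aeval_X, eval_mul, eval_pow, eval_X, one_pow, one_mul, hVe] at h
        exact h)
      (by
        intro t
        show (x ^ k t) ^ m * aeval (x ^ k t) f - (x ^ k t) ^ s * aeval (x ^ k t) (f.reflect m) = _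
        rw [hev, pow_sub_one (p := p) hy, mul_assoc, lead_pow hy, map_mul]
        ring)
    have hPU : ∏ t ∈ hf p α, ((x ^ k t) ^ m * aeval (x ^ k t) f) =
        (x ^ S) ^ m * (algebraMap (ZMod p) A r * x ^ i) := by
      rw [Finset.prod_mul_distrib, hthx x hy2, Finset.prod_pow, Finset.prod_pow_eq_pow_sum, hS]
    have hPV : ∏ t ∈ hf p α, ((x ^ k t) ^ s * aeval (x ^ k t) (f.reflect m)) =
        (x ^ S) ^ s * ((x ^ S) ^ m * (algebraMap (ZMod p) A r * z ^ i)) := by
      rw [Finset.prod_mul_distrib, Finset.prod_pow, Finset.prod_pow_eq_pow_sum, ← hS]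
      congr 1
      have h1 : ∀ t ∈ hf p α, aeval (x ^ k t) (f.reflect m) =
          (x ^ k t) ^ m * aeval (z ^ k t) f := by
        intro t _
        have h2 : (x ^ k t) ^ p = 1 := by rw [← pow_mul, mul_comm, pow_mul, hxp, one_pow]
        rw [refl_eval h2 hfd, hz]
        congr 3
        rw [← pow_mul, ← pow_mul, mul_comm]
      rw [Finset.prod_congr rfl h1, Finset.prod_mul_distrib, hthx z hz0, Finset.prod_pow,
        Finset.prod_pow_eq_pow_sum, ← hS]
    rw [hPU, hPV] at hmain
    have hsum : ∑ t ∈ hf p α, algebraMap (ZMod p) A (W.eval 1 * (k t : ZMod p) ^ l) =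
        algebraMap (ZMod p) A (W.eval 1 * hsa p α l) := by
      rw [← map_sum, ← Finset.mul_sum]
      unfold hsa
      congr 2
      exact Finset.sum_congr rfl fun t _ => by rw [hkc]
    rw [hsum] at hmain
    obtain ⟨a, ha⟩ : ∃ a : ℕ, a = S * m + i := ⟨_, rfl⟩
    obtain ⟨b, hb⟩ : ∃ b : ℕ, b = S * m + S * s + (p - 1) * i := ⟨_, rfl⟩
    have hxa : (x ^ S) ^ m * (algebraMap (ZMod p) A r * x ^ i) =
        algebraMap (ZMod p) A r * x ^ a := by
      rw [ha, pow_add, pow_mul]
      ring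
    have hxb : (x ^ S) ^ s * ((x ^ S) ^ m * (algebraMap (ZMod p) A r * z ^ i)) =
        algebraMap (ZMod p) A r * x ^ b := by
      rw [hb, pow_add, pow_add, pow_mul x S m, pow_mul x S s, pow_mul x (p - 1) i, ← hz]
      ring
    rw [hxa, hxb] at hmain
    have hab : (a : ZMod p) = b := by
      have hbc : (b : ZMod p) = S * m + S * s - i := by
        rw [hb]
        push_cast
        rw [Nat.cast_sub (Fact.out : p.Prime).one_le, Nat.cast_one, ZMod.natCast_self]
        ring
      · have h1 : algebraMap (ZMod p) A (f.eval 1 * (r * ((a : ZMod p) - b))) * (x - 1) ^ l = 0 := by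
          have h2 := congrArg (fun q => (x - 1) ^ (l - 1) * q) hmain
          have h3 : (x - 1) ^ (l - 1) * (algebraMap (ZMod p) A (f.eval 1) ^ (hf p α).card *
              algebraMap (ZMod p) A (W.eval 1 * hsa p α l) * (x - 1) ^ l) = 0 := by
            have h4 : (x - 1) ^ (l - 1) * (x - 1) ^ l = 0 := by
              rw [← pow_add]
              obtain ⟨c, hc⟩ : ∃ c, l - 1 + l = (l + 1) + c := ⟨l - 2, by omega⟩
              rw [hc, pow_add, hy, zero_mul]
            calc _ = algebraMap (ZMod p) A (f.eval 1) ^ (hf p α).card *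
                algebraMap (ZMod p) A (W.eval 1 * hsa p α l) * ((x - 1) ^ (l - 1) * (x - 1) ^ l) := by
                  ring
              _ = 0 := by rw [h4, mul_zero]
          rw [h3] at h2
          have h5 := pow_sub_pow (p := p) hy hl1 a b
          rw [map_mul, map_mul]
          calc algebraMap (ZMod p) A (f.eval 1) * (algebraMap (ZMod p) A r *
              algebraMap (ZMod p) A ((a : ZMod p) - b)) * (x - 1) ^ l =
              algebraMap (ZMod p) A (f.eval 1) * algebraMap (ZMod p) A r *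
                (algebraMap (ZMod p) A ((a : ZMod p) - b) * (x - 1) ^ l) := by ring
            _ = (x - 1) ^ (l - 1) * (algebraMap (ZMod p) A (f.eval 1) *
                (algebraMap (ZMod p) A r * x ^ a - algebraMap (ZMod p) A r * x ^ b)) := by
                rw [← h5]; ring
            _ = 0 := h2
        have h6 := hnz _ h1
        rcases mul_eq_zero.1 h6 with h7 | h7
        · exact absurd h7 hu
        · rcases mul_eq_zero.1 h7 with h8 | h8
          · exact absurd h8 hr
          · exact sub_eq_zero.1 h8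
    have hxab : x ^ a = x ^ b := pow_congr hxp hab
    rw [hxab, sub_self, mul_zero, ← map_pow, ← map_mul] at hmain
    have h9 := hnz _ hmain.symm
    rcases mul_eq_zero.1 h9 with h10 | h10
    · exact absurd h10 (pow_ne_zero _ hu)
    · exact (mul_eq_zero.1 h10).resolve_left hw

/-- the leading term at one, from a congruence of lower order -/
theorem coreT (p : ℕ) [Fact p.Prime] (hp2 : p ≠ 2) (α m s i l k₀ : ℕ)
    (f W : Polynomial (ZMod p)) (r : ZMod p) (hfd : f.natDegree ≤ m) (hu : f.eval 1 ≠ 0)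
    (hr : r ≠ 0) (hth : (X - 1) ^ k₀ ∣ thPa p α f - Polynomial.C r * X ^ i) (hlk : l + 1 ≤ k₀)
    (hUV : X ^ m * f - X ^ s * f.reflect m = (X - 1) ^ l * W) (hw : W.eval 1 ≠ 0)
    (hl2 : 2 ≤ l) (hlp : l + 2 ≤ p) : Odd l ∧ hsa p α l = 0 := by
  refine core_T p hp2 α m s i l k₀ f W r hfd hu hr hth hlk hUV hw (by omega) hlp hl2
    (A := Polynomial (ZMod p) ⧸ Ideal.span {((X : Polynomial (ZMod p)) - 1) ^ (l + 1)})
    (Ideal.Quotient.mk _ X) ?_ ?_
  · have h : (Ideal.Quotient.mk (Ideal.span {((X : Polynomial (ZMod p)) - 1) ^ (l + 1)}) X - 1) ^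
        (l + 1) = Ideal.Quotient.mk _ ((X - 1) ^ (l + 1)) := by
      rw [map_pow, map_sub, map_one]
    rw [h]
    exact Ideal.Quotient.eq_zero_iff_mem.2 (Ideal.mem_span_singleton_self _)
  · intro c hc
    have h : algebraMap (ZMod p) (Polynomial (ZMod p) ⧸
        Ideal.span {((X : Polynomial (ZMod p)) - 1) ^ (l + 1)}) c *
        (Ideal.Quotient.mk (Ideal.span {((X : Polynomial (ZMod p)) - 1) ^ (l + 1)}) X - 1) ^ l =
        Ideal.Quotient.mk _ (C c * (X - 1) ^ l) := by
      rw [map_mul, map_pow, map_sub, map_one]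
      rfl
    rw [h, Ideal.Quotient.eq_zero_iff_mem, Ideal.mem_span_singleton, pow_succ, mul_comm (C c)] at hc
    have hX : ((X : Polynomial (ZMod p)) - 1) ≠ 0 := by
      have : ((X : Polynomial (ZMod p)) - C 1) ≠ 0 := X_sub_C_ne_zero 1
      rwa [C_1] at this
    have h2 := (mul_dvd_mul_iff_left (pow_ne_zero l hX)).1 hc
    obtain ⟨g, hg⟩ := h2
    have h3 := congrArg (Polynomial.eval 1) hg
    rw [eval_C, eval_mul, eval_sub, eval_X, eval_one, sub_self, zero_mul] at h3
    exact h3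


end core

section polba

open Pool.Agent.Y587.WQ

/-- `f` is palindromic if the first `m` indices are regular -/
theorem polbaT (p : ℕ) [Fact p.Prime] (m k₀ : ℕ) (f : Polynomial (ZMod p))
    (hk : 2 * m + 2 ≤ k₀) (hkp : k₀ + 1 ≤ p) (hf : f.natDegree ≤ m) (h0 : f.coeff 0 ≠ 0)
    (hm : f.coeff m ≠ 0) (h1 : f.eval 1 ≠ 0) (hrel : RelT p k₀ f)
    (hreg : ∀ j, Odd j → 3 ≤ j → j ≤ 2 * m + 1 → Reg p j) (hp3 : 3 ≤ p) : f.reflect m = f := by
  have hp2 : p ≠ 2 := by omega
  have hfr : (f.reflect m).natDegree ≤ m := by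
    refine natDegree_reflect_le.trans ?_
    exact max_le le_rfl hf
  have hr1 : (f.reflect m).eval 1 = f.eval 1 := eval_reflect_one hf
  obtain ⟨s, hsp, hs⟩ : ∃ s : ℕ, s < p ∧ (s : ZMod p) * f.eval 1 =
      m * f.eval 1 + (derivative f).eval 1 - (derivative (f.reflect m)).eval 1 := by
    refine ⟨((m * f.eval 1 + (derivative f).eval 1 -
      (derivative (f.reflect m)).eval 1) / f.eval 1).val, ZMod.val_lt _, ?_⟩
    rw [ZMod.natCast_zmod_val, div_mul_cancel₀ _ h1]
  obtain ⟨G, hG⟩ : ∃ G : (ZMod p)[X], G = X ^ m * f - X ^ s * f.reflect m := ⟨_, rfl⟩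
  have hG0 : G.eval 1 = 0 := by
    rw [hG]
    simp only [eval_sub, eval_mul, eval_pow, eval_X, one_pow, one_mul]
    rw [hr1, sub_self]
  have hG1 : (derivative G).eval 1 = 0 := by
    have e := congrArg (fun q => q.eval (1 : ZMod p)) (X_mul_derivative m f)
    have e' := congrArg (fun q => q.eval (1 : ZMod p)) (X_mul_derivative s (f.reflect m))
    simp only [eval_mul, eval_X, one_mul, eval_pow, one_pow, eval_add, eval_C] at e e'
    rw [hG, derivative_sub, eval_sub, e, e', hr1, hs]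
    ring
  have hG2 := sq_dvd hG0 hG1
  have key : (X - 1 : (ZMod p)[X]) ^ (2 * m + 2) ∣ G := by
    by_cases hGz : G = 0
    · rw [hGz]
      exact dvd_zero _
    · obtain ⟨W, hW, hWn⟩ := exists_eq_pow_rootMultiplicity_mul_and_not_dvd G hGz 1
      obtain ⟨l, hl⟩ : ∃ l, l = G.rootMultiplicity 1 := ⟨_, rfl⟩
      rw [← hl, C_1] at hW
      rw [C_1] at hWn
      have hl2 : 2 ≤ l := by
        rw [hl, le_rootMultiplicity_iff hGz, C_1]
        exact hG2
      have hW1 : W.eval 1 ≠ 0 := by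
        intro h
        apply hWn
        have := dvd_iff_isRoot.2 h
        rwa [C_1] at this
      by_cases hlm : l ≤ 2 * m + 1
      · have hall : ∀ a : ℕ, 0 < a → a + 2 ≤ p → Odd l ∧ hsa p a l = 0 := by
          intro a ha ha'
          obtain ⟨i, r, hr, hdiv⟩ := hrel a ha ha'
          exact coreT p hp2 a m s i l k₀ f W r hf h1 hr hdiv (by omega) (by rw [← hG]; exact hW)
            hW1 hl2 (by omega)
        have hodd := (hall 1 (by omega) (by omega)).1
        have h3 : 3 ≤ l := by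
          obtain ⟨t, ht⟩ := hodd
          omega
        obtain ⟨a, ha, ha', hne⟩ := hreg l hodd h3 hlm
        exact absurd (hall a ha ha').2 hne
      · rw [hW]
        exact (pow_dvd_pow _ (by omega)).mul_right _
  rw [hG] at key
  have hms := wronskian hf h0 hm key
  have hsm : s = m := by
    have h2 := (ZMod.natCast_eq_natCast_iff' m s p).1 hms
    rw [Nat.mod_eq_of_lt (by omega), Nat.mod_eq_of_lt hsp] at h2
    exact h2.symm
  rw [hsm, ← mul_sub] at key
  have h3 := (cop (F := ZMod p) (2 * m + 2) m).dvd_of_dvd_mul_left key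
  have h4 : (f - f.reflect m).natDegree < ((X - 1 : (ZMod p)[X]) ^ (2 * m + 2)).natDegree := by
    rw [natDegree_X_sub_one_pow]
    have h5 := natDegree_sub_le f (f.reflect m)
    have h6 := max_le hf hfr
    omega
  have h5 := eq_zero_of_dvd_of_natDegree_lt h3 h4
  exact (sub_eq_zero.1 h5).symm


end polba

section pole1

open Pool.Agent.Y780.WQ

variable (p : ℕ) [hp : Fact p.Prime]

/-- the consequence of the relations for the coefficients of the logarithmic derivative -/
lemma coeff_relT (f : Polynomial (ZMod p)) (hf1 : f.eval 1 ≠ 0) (h : PowerSeries (ZMod p))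
    (hh : PowerSeries.derivative (ZMod p) (aeval (ex p) f) = h * aeval (ex p) f) (a i : ℕ) (r : ZMod p)
    (k₀ : ℕ) (hk₀ : k₀ + 1 ≤ p)
    (hr : (X - 1) ^ k₀ ∣ thPa p a f - Polynomial.C r * X ^ i) (k : ℕ) (hk : 1 ≤ k) (hkp : k + 1 < k₀) :
    hsa p a (k + 1) * PowerSeries.coeff k h = 0 := by
  set F := aeval (ex p) f with hF
  set s : (ZMod p)ˣ → ZMod p := fun t => ((t⁻¹ : (ZMod p)ˣ) : ZMod p) with hs
  set P : PowerSeries (ZMod p) := ∏ t ∈ hf p a, PowerSeries.rescale (s t) F with hP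
  set U : PowerSeries (ZMod p) := ∑ t ∈ hf p a, PowerSeries.C (s t) * PowerSeries.rescale (s t) h with hU
  have h1 : Eqm k₀ P (PowerSeries.C r * ex p ^ i) := by
    have h2 := eqm_of_dvd p hr
    rw [map_mul, map_pow, aeval_X, aeval_C, thPa, map_prod] at h2
    refine Eqm.trans ?_ h2
    refine Eqm.prod _ fun t _ => ?_
    have h3 := aeval_pow p ((t⁻¹ : (ZMod p)ˣ) : ZMod p).val f
    rw [ZMod.natCast_val, ZMod.cast_id] at h3
    exact (h3.mono (by omega)).symm
  have h4 : PowerSeries.derivative (ZMod p) P = U * P := by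
    refine der_prod _ _ _ fun t _ => ?_
    rw [der_rescale, hh, map_mul]
    ring
  have h5 : Eqm (k₀ - 1) (U * P) (PowerSeries.C (i : ZMod p) * P) := by
    rw [← h4]
    refine h1.der.trans ?_
    rw [Derivation.leibniz, PowerSeries.derivative_C, smul_zero, add_zero, smul_eq_mul]
    have h6 : Eqm (k₀ - 1) (PowerSeries.C r * PowerSeries.derivative (ZMod p) (ex p ^ i))
        (PowerSeries.C r * (PowerSeries.C (i : ZMod p) * ex p ^ i)) :=
      Eqm.rfl'.mul ((der_ex_pow p i).mono (by omega))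
    refine h6.trans ?_
    have h7 : PowerSeries.C r * (PowerSeries.C (i : ZMod p) * ex p ^ i) =
        PowerSeries.C (i : ZMod p) * (PowerSeries.C r * ex p ^ i) := by ring
    rw [h7]
    exact Eqm.rfl'.mul (h1.symm.mono (by omega))
  have hPc : PowerSeries.constantCoeff P ≠ 0 := by
    rw [hP, map_prod]
    refine Finset.prod_ne_zero_iff.2 fun t _ => ?_
    rw [constantCoeff_rescale, hF, const_aeval]
    exact hf1
  have h8 := (h5.cancel hPc) k (by omega)
  rw [hU, map_sum, PowerSeries.coeff_C, if_neg (by omega)] at h8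
  rw [hsa, Finset.sum_mul, ← h8]
  refine Finset.sum_congr rfl fun t _ => ?_
  rw [PowerSeries.coeff_C_mul, PowerSeries.coeff_rescale, pow_succ]
  ring


theorem pole1T (m k₀ : ℕ) (f : Polynomial (ZMod p)) (J : Finset ℕ)
    (hk₀ : k₀ + 1 ≤ p) (hp5 : 5 ≤ p) (hfm : f.natDegree ≤ m) (hf1 : f.eval 1 ≠ 0)
    (hRel : RelT p k₀ f)
    (hJ : ∀ j, Odd j → 3 ≤ j → j + 2 ≤ p → j ∉ J → Reg p j) (_hJp : J.card + 1 < p) :
    ∃ (b : ℕ → ZMod p) (d : ZMod p), (∃ i, 1 ≤ i ∧ i ≤ J.card + 1 ∧ b i ≠ 0) ∧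
      (X - 1) ^ (k₀ - 1) ∣ Lin (J.card + 1) (Wf m f) (Vf m f) b d := by
  set F := aeval (ex p) f with hF
  set Fs := aeval (ex p) (f.reflect m) with hFs
  have hFc : PowerSeries.constantCoeff F ≠ 0 := by rw [hF, const_aeval]; exact hf1
  set h : PowerSeries (ZMod p) := PowerSeries.derivative (ZMod p) F * F⁻¹ with hh
  have hdF : PowerSeries.derivative (ZMod p) F = h * F := by
    rw [hh, mul_assoc, mul_comm F⁻¹, PowerSeries.mul_inv_cancel _ hFc, mul_one]
  -- vanishing coefficients
  have hvan : ∀ k, 1 ≤ k → k + 1 < k₀ → Even k → k + 1 ∉ J → PowerSeries.coeff k h = 0 := by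
    intro k hk hkp hke hkJ
    obtain ⟨a, ha, hap, hne⟩ := hJ (k + 1) hke.add_one (by obtain ⟨c, rfl⟩ := hke; omega) (by omega) hkJ
    obtain ⟨i, r, hr, hdvd⟩ := hRel a ha hap
    exact (mul_eq_zero.1 (coeff_relT p f hf1 h hdF a i r k₀ hk₀ hdvd k hk hkp)).resolve_left hne
  -- the dual polynomial
  have hdual := dual p f m hfm
  rw [← hF, ← hFs] at hdual
  set h' : PowerSeries (ZMod p) := PowerSeries.rescale (-1) h with hh'
  have hdFs : Eqm (p - 1) (PowerSeries.derivative (ZMod p) Fs)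
      ((PowerSeries.C (m : ZMod p) - h') * Fs) := by
    refine hdual.der.trans ?_
    rw [Derivation.leibniz, der_rescale, hdF, map_mul, smul_eq_mul, smul_eq_mul]
    have h1 : Eqm (p - 1) (ex p ^ m * (PowerSeries.C (-1 : ZMod p) * (PowerSeries.rescale (-1) h *
        PowerSeries.rescale (-1) F)) + PowerSeries.rescale (-1) F *
          PowerSeries.derivative (ZMod p) (ex p ^ m))
        (ex p ^ m * (PowerSeries.C (-1 : ZMod p) * (PowerSeries.rescale (-1) h *
        PowerSeries.rescale (-1) F)) + PowerSeries.rescale (-1) F *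
          (PowerSeries.C (m : ZMod p) * ex p ^ m)) :=
      Eqm.rfl'.add (Eqm.rfl'.mul (der_ex_pow p m))
    refine h1.trans ?_
    have h2 : ex p ^ m * (PowerSeries.C (-1 : ZMod p) * (PowerSeries.rescale (-1) h *
        PowerSeries.rescale (-1) F)) + PowerSeries.rescale (-1) F *
          (PowerSeries.C (m : ZMod p) * ex p ^ m) =
        (PowerSeries.C (m : ZMod p) - h') * (ex p ^ m * PowerSeries.rescale (-1) F) := by
      rw [map_neg, map_one, hh']; ring
    rw [h2]
    exact Eqm.rfl'.mul (hdual.symm.mono (by omega))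
  set Gm : PowerSeries (ZMod p) := h + h' - PowerSeries.C (m : ZMod p) with hGm
  have hV : aeval (ex p) (Vf m f) = F * Fs := by rw [Vf, map_mul]
  have hW : Eqm (p - 1) (aeval (ex p) (Wf m f)) (F * Fs * Gm) := by
    rw [Wf, map_sub, map_mul, map_mul, ← hF, ← hFs]
    have h1 : Eqm (p - 1) (Fs * aeval (ex p) (DD f) - F * aeval (ex p) (DD (f.reflect m)))
        (Fs * (h * F) - F * ((PowerSeries.C (m : ZMod p) - h') * Fs)) := by
      refine Eqm.sub (Eqm.rfl'.mul ?_) (Eqm.rfl'.mul ?_)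
      · rw [← hdF]; exact (der_aeval p f).symm
      · exact (der_aeval p (f.reflect m)).symm.trans hdFs
    refine h1.trans ?_
    have h2 : Fs * (h * F) - F * ((PowerSeries.C (m : ZMod p) - h') * Fs) = F * Fs * Gm := by
      rw [hGm]; ring
    rw [h2]
    exact Eqm.rfl'
  have hcG : ∀ k, 1 ≤ k → PowerSeries.coeff k Gm = (1 + (-1) ^ k) * PowerSeries.coeff k h := by
    intro k hk
    rw [hGm, map_sub, map_add, hh', PowerSeries.coeff_rescale, PowerSeries.coeff_C, if_neg (by omega)]
    ring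
  -- the coefficients b
  set n := J.card + 1 with hn
  obtain ⟨b, hb0, hb⟩ : ∃ b : Fin n → ZMod p, b ≠ 0 ∧ ∀ j ∈ J, ∑ i, b i * ((i : ℕ) + 1 : ZMod p) ^ (j - 1) = 0 := by
    let φ : (Fin n → ZMod p) →ₗ[ZMod p] (J → ZMod p) :=
      LinearMap.pi fun j => ∑ i : Fin n, (((i : ℕ) + 1 : ZMod p) ^ ((j : ℕ) - 1)) • LinearMap.proj i
    have hφ : LinearMap.ker φ ≠ ⊥ := by
      refine LinearMap.ker_ne_bot_of_finrank_lt ?_
      rw [Module.finrank_fintype_fun_eq_card, Module.finrank_fintype_fun_eq_card, Fintype.card_coe,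
        Fintype.card_fin]
      omega
    obtain ⟨b, hb, hb0⟩ := (Submodule.ne_bot_iff _).1 hφ
    refine ⟨b, hb0, fun j hj => ?_⟩
    have h1 := congrFun (LinearMap.mem_ker.1 hb) ⟨j, hj⟩
    simp only [φ, LinearMap.pi_apply, LinearMap.sum_apply, LinearMap.smul_apply, LinearMap.proj_apply,
      smul_eq_mul, Pi.zero_apply] at h1
    rw [← h1]
    exact Finset.sum_congr rfl fun i _ => mul_comm _ _
  set b' : ℕ → ZMod p := fun i => if hi : 1 ≤ i ∧ i ≤ n then b ⟨i - 1, by omega⟩ else 0 with hb'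
  have hsum : ∀ g : ℕ → ZMod p, ∑ i ∈ Finset.Icc 1 n, b' i * g i = ∑ i : Fin n, b i * g ((i : ℕ) + 1) := by
    intro g
    have h1 : Finset.Icc 1 n = Finset.Ico (0 + 1) (n + 1) := by ext x; simp
    rw [h1, ← Finset.sum_Ico_add' (fun i => b' i * g i) 0 n 1, ← Finset.range_eq_Ico,
      ← Fin.sum_univ_eq_sum_range (fun i => b' (i + 1) * g (i + 1)) n]
    refine Finset.sum_congr rfl fun i _ => ?_
    have h2 : b' ((i : ℕ) + 1) = b i := by
      rw [hb']
      simp only
      rw [dif_pos ⟨by omega, by omega⟩]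
      congr 1
    rw [h2]
  refine ⟨b', (∑ i ∈ Finset.Icc 1 n, b' i) * PowerSeries.coeff 0 Gm, ?_, ?_⟩
  · obtain ⟨i, hi⟩ := Function.ne_iff.1 hb0
    refine ⟨i + 1, by omega, by omega, ?_⟩
    rw [hb']
    simp only
    rw [dif_pos ⟨by omega, by omega⟩]
    simpa using hi
  · refine dvd_of_eqm p ?_
    set d : ZMod p := (∑ i ∈ Finset.Icc 1 n, b' i) * PowerSeries.coeff 0 Gm with hd
    have hVk : ∀ k : ℕ, Eqm (p - 1) (aeval (ex p) ((Vf m f).comp (X ^ k)))
        (PowerSeries.rescale (k : ZMod p) (F * Fs)) := by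
      intro k
      rw [← hV]
      exact (aeval_pow p k _).mono (by omega)
    have hWk : ∀ k : ℕ, Eqm (p - 1) (aeval (ex p) ((Wf m f).comp (X ^ k)))
        (PowerSeries.rescale (k : ZMod p) (F * Fs) * PowerSeries.rescale (k : ZMod p) Gm) := by
      intro k
      rw [← map_mul]
      exact ((aeval_pow p k _).mono (by omega)).trans (hW.rescale _)
    have h1 : Eqm (p - 1) (aeval (ex p) (Lin n (Wf m f) (Vf m f) b' d))
        ((∑ i ∈ Finset.Icc 1 n, PowerSeries.C (b' i) * PowerSeries.rescale (i : ZMod p) Gm -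
          PowerSeries.C d) * ∏ k ∈ Finset.Icc 1 n, PowerSeries.rescale (k : ZMod p) (F * Fs)) := by
      rw [Lin, map_sub, map_sum, map_mul, map_prod, sub_mul, Finset.sum_mul, aeval_C]
      refine Eqm.sub (Eqm.sum _ fun i hi => ?_) (Eqm.rfl'.mul (Eqm.prod _ fun k _ => hVk k))
      rw [map_mul, map_mul, map_prod, aeval_C]
      have h2 : Eqm (p - 1) (algebraMap (ZMod p) (PowerSeries (ZMod p)) (b' i) *
          aeval (ex p) ((Wf m f).comp (X ^ i)) *
          ∏ k ∈ (Finset.Icc 1 n).erase i, aeval (ex p) ((Vf m f).comp (X ^ k)))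
          (algebraMap (ZMod p) (PowerSeries (ZMod p)) (b' i) *
          (PowerSeries.rescale (i : ZMod p) (F * Fs) * PowerSeries.rescale (i : ZMod p) Gm) *
          ∏ k ∈ (Finset.Icc 1 n).erase i, PowerSeries.rescale (k : ZMod p) (F * Fs)) :=
        (Eqm.rfl'.mul (hWk i)).mul (Eqm.prod _ fun k _ => hVk k)
      refine h2.trans ?_
      rw [← Finset.mul_prod_erase (Finset.Icc 1 n) (fun k : ℕ => PowerSeries.rescale (k : ZMod p) (F * Fs)) hi]
      have h3 : algebraMap (ZMod p) (PowerSeries (ZMod p)) (b' i) *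
          (PowerSeries.rescale (i : ZMod p) (F * Fs) * PowerSeries.rescale (i : ZMod p) Gm) *
          ∏ k ∈ (Finset.Icc 1 n).erase i, PowerSeries.rescale (k : ZMod p) (F * Fs) =
          PowerSeries.C (b' i) * PowerSeries.rescale (i : ZMod p) Gm *
          (PowerSeries.rescale (i : ZMod p) (F * Fs) *
          ∏ k ∈ (Finset.Icc 1 n).erase i, PowerSeries.rescale (k : ZMod p) (F * Fs)) := by
        rw [PowerSeries.algebraMap_apply, Algebra.algebraMap_self_apply]
        ring
      rw [h3]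
      exact Eqm.rfl'
    have h4 : Eqm (k₀ - 1) (∑ i ∈ Finset.Icc 1 n, PowerSeries.C (b' i) * PowerSeries.rescale (i : ZMod p) Gm -
          PowerSeries.C d) 0 := by
      intro k hk
      rw [map_sub, map_sum, map_zero]
      have h5 : ∀ i ∈ Finset.Icc 1 n, PowerSeries.coeff k (PowerSeries.C (b' i) *
          PowerSeries.rescale (i : ZMod p) Gm) = b' i * (i : ZMod p) ^ k * PowerSeries.coeff k Gm := by
        intro i _
        rw [PowerSeries.coeff_C_mul, PowerSeries.coeff_rescale]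
        ring
      rw [Finset.sum_congr rfl h5, ← Finset.sum_mul, PowerSeries.coeff_C]
      rcases Nat.eq_zero_or_pos k with h0 | h0
      · subst h0
        rw [if_pos rfl, hd]
        simp
      · rw [if_neg (by omega), sub_zero]
        rcases Nat.even_or_odd k with hev | hod
        · by_cases hkJ : k + 1 ∈ J
          · have h6 := hb (k + 1) hkJ
            have h7 := hsum fun i => (i : ZMod p) ^ k
            rw [h7]
            have h8 : ∑ i : Fin n, b i * ((((i : ℕ) + 1 : ℕ) : ZMod p)) ^ k = 0 := by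
              rw [← h6]
              refine Finset.sum_congr rfl fun i _ => ?_
              push_cast
              rfl
            rw [h8, zero_mul]
          · rw [hcG k h0, hvan k h0 (by omega) hev hkJ, mul_zero, mul_zero]
        · rw [hcG k h0, hod.neg_one_pow, add_neg_cancel, zero_mul, mul_zero]
    refine (h1.mono (by omega)).trans ?_
    have h9 := h4.mul (Eqm.rfl' (A := ∏ k ∈ Finset.Icc 1 n, PowerSeries.rescale (k : ZMod p) (F * Fs)))
    rwa [zero_mul] at h9


end pole1

section pole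

open Pool.Agent.Y590.WQ

/-- `f` is palindromic if there are few irregular indices -/
theorem poleT (h2 : S_POLE2) (p : ℕ) [Fact p.Prime] (m k₀ : ℕ) (f : Polynomial (ZMod p))
    (J : Finset ℕ) (hk₀ : k₀ + 1 ≤ p) (hm : 0 < m) (hf : f.natDegree ≤ m) (h0 : f.coeff 0 ≠ 0)
    (hmm : f.coeff m ≠ 0) (he : f.eval 1 ≠ 0) (hR : RelT p k₀ f)
    (hJ : ∀ j, Odd j → 3 ≤ j → j + 2 ≤ p → j ∉ J → Reg p j)
    (hk : m * ((J.card + 1) * (J.card + 2)) + 2 ≤ k₀) : f.reflect m = f := by
  have hp : m * ((J.card + 1) * (J.card + 2)) + 3 ≤ p := by omega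
  set n := J.card + 1 with hn
  have hn1 : 1 ≤ n := by omega
  have hmn : 1 * (1 * 2) ≤ m * (n * (n + 1)) :=
    Nat.mul_le_mul hm (Nat.mul_le_mul hn1 (by omega))
  have hnle : n ≤ m * (n * (n + 1)) := by
    calc n = 1 * (n * 1) := by ring
      _ ≤ m * (n * (n + 1)) := Nat.mul_le_mul hm (Nat.mul_le_mul le_rfl (by omega))
  have hmle : m ≤ m * (n * (n + 1)) := by
    calc m = m * (1 * 1) := by ring
      _ ≤ m * (n * (n + 1)) := Nat.mul_le_mul le_rfl (Nat.mul_le_mul hn1 (by omega))
  have hp' : m * (n * (n + 1)) + 3 ≤ p := hp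
  have hk' : m * (n * (n + 1)) + 2 ≤ k₀ := hk
  obtain ⟨b, d, hb, hdvd⟩ := pole1T p m k₀ f J hk₀ (by omega) hf he hR hJ (by omega)
  have hW := Wf_natDegree_le hm hf
  have hV := Vf_natDegree_le hf
  have hL : Lin n (Wf m f) (Vf m f) b d = 0 := by
    refine eq_zero_of_dvd_of_natDegree_lt hdvd ?_
    have h3 := Lin_natDegree_le (n := n) hW hV b d
    rw [sum_Icc] at h3
    refine h3.trans_lt ?_
    have h4 : (X - 1 : Polynomial (ZMod p)) = X - Polynomial.C 1 := by rw [C_1]
    rw [h4, natDegree_pow, natDegree_X_sub_C]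
    omega
  have hVc : (Vf m f).coeff 0 ≠ 0 := by
    unfold Vf
    rw [mul_coeff_zero, reflect_coeff_zero]
    exact mul_ne_zero h0 hmm
  have hWc : (Wf m f).coeff 0 = 0 := by
    unfold Wf
    rw [coeff_sub, mul_coeff_zero, mul_coeff_zero, DD_coeff_zero, DD_coeff_zero]
    ring
  have hW0 : Wf m f = 0 := h2 p n (Wf m f) (Vf m f) b d (by omega)
    (by rw [Vf_natDegree hf h0 hmm]; exact hW) hVc hWc hb hL
  have hw : f.reflect m * derivative f = f * derivative (f.reflect m) := by
    have h3 : X * (f.reflect m * derivative f - f * derivative (f.reflect m)) = 0 := by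
      rw [← hW0]
      unfold Wf DD
      ring
    rcases mul_eq_zero.1 h3 with h4 | h4
    · exact absurd h4 X_ne_zero
    · exact sub_eq_zero.1 h4
  have hprop := prop_of_wronskian (m := m) (by omega) hf (reflect_natDegree_le hf)
    (by rw [reflect_coeff_zero]; exact hmm) hw
  rw [reflect_coeff_zero] at hprop
  have h3 := congrArg (fun q => eval 1 q) hprop
  simp only [eval_mul, eval_C] at h3
  rw [reflect_eval_one hf] at h3
  have h4 : f.coeff m = f.coeff 0 := mul_right_cancel₀ he h3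
  rw [h4] at hprop
  exact (mul_left_cancel₀ (C_ne_zero.2 h0) hprop).symm


end pole

end Pool.Agent.Q279.FL
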