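import Pool.Agent.Q279.FL.Pol
import Pool.Agent.Y546.WQ.PalK

/-!
# The relations for the part of the norm polynomial prime to `T (T - 1)`
-/

set_option autoImplicit false

namespace Pool.Agent.Q279.FL

open NumberField IsDedekindDomain Polynomial Pool.Agent.Y546.WQ

section

variable {p : ℕ} [Fact p.Prime]

theorem thPa_congr (k a : ℕ) (A B : Polynomial (ZMod p)) (h : (X - 1) ^ k ∣ A - B) :
    (X - 1) ^ k ∣ thPa p a A - thPa p a B := by
  have key : ∀ s : ℕ, Ideal.Quotient.mk (Ideal.span {((X : Polynomial (ZMod p)) - 1) ^ k})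
      (A.comp (X ^ s)) =
      Ideal.Quotient.mk (Ideal.span {((X : Polynomial (ZMod p)) - 1) ^ k}) (B.comp (X ^ s)) := by
    intro s
    rw [Ideal.Quotient.eq, Ideal.mem_span_singleton, ← sub_comp]
    obtain ⟨q, hq⟩ := h
    rw [hq, mul_comp, pow_comp, sub_comp, X_comp, one_comp]
    refine Dvd.dvd.mul_right (pow_dvd_pow_of_dvd ?_ k) _
    have := sub_dvd_pow_sub_pow (X : Polynomial (ZMod p)) 1 s
    rwa [one_pow] at this
  rw [← Ideal.mem_span_singleton, ← Ideal.Quotient.eq]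
  unfold thPa
  rw [map_prod, map_prod]
  exact Finset.prod_congr rfl fun t _ => key _

theorem thPa_X_pow (a a₀ : ℕ) (G : Polynomial (ZMod p)) :
    ∃ s : ℕ, thPa p a (X ^ a₀ * G) = X ^ s * thPa p a G := by
  refine ⟨∑ t ∈ hf p a, ((t⁻¹ : (ZMod p)ˣ) : ZMod p).val * a₀, ?_⟩
  unfold thPa
  rw [← Finset.prod_pow_eq_pow_sum, ← Finset.prod_mul_distrib]
  refine Finset.prod_congr rfl fun t _ => ?_
  rw [mul_comp, pow_comp, X_comp, ← pow_mul]

theorem frob_one (k s : ℕ) (hk : k ≤ p) : (X - 1 : Polynomial (ZMod p)) ^ k ∣ X ^ (p * s) - 1 := by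
  have h1 : (X - 1 : Polynomial (ZMod p)) ^ p ∣ X ^ (p * s) - 1 := by
    have h2 : (X - 1 : Polynomial (ZMod p)) ^ p = X ^ p - 1 := by
      rw [sub_pow_char, one_pow]
    rw [h2, pow_mul]
    have := sub_dvd_pow_sub_pow ((X : Polynomial (ZMod p)) ^ p) 1 s
    rwa [one_pow] at this
  exact (pow_dvd_pow _ hk).trans h1

/-- from the relation for a lift to the relation for the polynomial -/
theorem rel_lift (k a a₀ i : ℕ) (hk : k ≤ p) (F G : Polynomial (ZMod p)) (r : ZMod p)
    (hFG : (X - 1) ^ k ∣ F - X ^ a₀ * G)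
    (hF : (X - 1) ^ k ∣ thPa p a F - Polynomial.C r * X ^ i) :
    ∃ j : ℕ, (X - 1) ^ k ∣ thPa p a G - Polynomial.C r * X ^ j := by
  obtain ⟨s, hs⟩ := thPa_X_pow (p := p) a a₀ G
  have h1 := thPa_congr k a _ _ hFG
  rw [hs] at h1
  have h2 : (X - 1) ^ k ∣ X ^ s * thPa p a G - Polynomial.C r * X ^ i := by
    have := dvd_sub hF h1
    have e : (thPa p a F - Polynomial.C r * X ^ i) - (thPa p a F - X ^ s * thPa p a G) =
        X ^ s * thPa p a G - Polynomial.C r * X ^ i := by ring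
    rwa [e] at this
  have hp1 : 1 ≤ p := (Fact.out : p.Prime).one_le
  refine ⟨(p - 1) * s + i, ?_⟩
  have h3 := h2.mul_left (X ^ ((p - 1) * s))
  have h4 := (frob_one (p := p) k s hk).mul_right (thPa p a G)
  have e : thPa p a G - Polynomial.C r * X ^ ((p - 1) * s + i) =
      X ^ ((p - 1) * s) * (X ^ s * thPa p a G - Polynomial.C r * X ^ i) -
        (X ^ (p * s) - 1) * thPa p a G := by
    have e1 : p * s = (p - 1) * s + s := by
      obtain ⟨q, rfl⟩ : ∃ q, p = q + 1 := ⟨p - 1, by omega⟩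
      rw [Nat.add_sub_cancel]
      ring
    rw [e1, pow_add, pow_add]
    ring
  rw [e]
  exact dvd_sub h3 h4

theorem zero_of_map {f : Polynomial ℤ} (h : f.map (Int.castRingHom (ZMod p)) = 0) :
    ∃ S : Polynomial ℤ, f = Polynomial.C (p : ℤ) * S := by
  have h1 : Polynomial.C (p : ℤ) ∣ f := by
    rw [Polynomial.C_dvd_iff_dvd_coeff]
    intro i
    have h2 := congrArg (fun q => q.coeff i) h
    simp only [coeff_map, coeff_zero] at h2
    exact (ZMod.intCast_zmod_eq_zero_iff_dvd _ p).1 h2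
  exact h1

end

section

variable {p : ℕ} [Fact p.Prime] {E : Type} [Field E] [NumberField E]

/-- `p` is divisible by the power `p - 1` of `w - 1` -/
theorem p_eq (w : 𝓞 E) (hw : IsPrimitiveRoot w p) :
    ∃ u : 𝓞 E, ((p : ℕ) : 𝓞 E) = (w - 1) ^ (p - 1) * u := by
  classical
  have hpp : p.Prime := Fact.out
  have h1 : ((p : ℕ) : 𝓞 E) = ∏ μ ∈ primitiveRoots p (𝓞 E), (1 - μ) := by
    have h2 := Polynomial.cyclotomic_eq_prod_X_sub_primitiveRoots hw
    have h3 := congrArg (Polynomial.eval 1) h2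
    rw [eval_one_cyclotomic_prime, eval_prod] at h3
    rw [h3]
    exact Finset.prod_congr rfl fun μ _ => by simp
  have h4 : (w - 1) ^ (primitiveRoots p (𝓞 E)).card ∣ ∏ μ ∈ primitiveRoots p (𝓞 E), (1 - μ) := by
    rw [← Finset.prod_const]
    refine Finset.prod_dvd_prod_of_dvd _ _ fun μ hμ => ?_
    have h5 := isPrimitiveRoot_of_mem_primitiveRoots hμ
    obtain ⟨i, -, hi⟩ := hw.eq_pow_of_pow_eq_one h5.pow_eq_one
    rw [← hi]
    have := sub_dvd_pow_sub_pow w 1 i
    rw [one_pow] at this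
    rw [← dvd_neg]
    have e : -(1 - w ^ i) = w ^ i - 1 := by ring
    rwa [e]
  rw [hw.card_primitiveRoots, Nat.totient_prime hpp] at h4
  rw [h1]
  exact h4

theorem relT_of (hU : S_UNITA) (hL : S_LAMA) (hp2 : p ≠ 2) (c : Cyc p E) (f : Polynomial ℤ)
    (h0 : aeval c.z f ≠ 0) (h1 : f.eval 1 ≠ 0)
    (hv : ∀ P : HeightOneSpectrum (𝓞 E), ((p : ℕ) : 𝓞 E) ∉ P.asIdeal → ∃ m : ℤ,
      P.valuation E (aeval c.z f) =
      P.valuation E ((f.eval 1 : ℤ) : E) * WithZero.exp ((p : ℤ) * m))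
    (a₀ c₀ : ℕ) (G : Polynomial (ZMod p))
    (hfG : f.map (Int.castRingHom (ZMod p)) = X ^ a₀ * (X - 1) ^ c₀ * G)
    (hG1 : G.eval 1 ≠ 0) (hc : c₀ + 2 ≤ p) : RelT p (p - 1 - c₀) G := by
  classical
  have hpp : p.Prime := Fact.out
  obtain ⟨k, hk⟩ : ∃ k, k = p - 1 - c₀ := ⟨_, rfl⟩
  rw [← hk]
  obtain ⟨w, hwz, hw⟩ := exists_zint c
  have hwz' : algebraMap (𝓞 E) E w = c.z := hwz
  obtain ⟨u, hu⟩ := p_eq w hw
  -- lifts
  obtain ⟨H, hH⟩ := Polynomial.map_surjective (Int.castRingHom (ZMod p))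
    (ZMod.intCast_surjective) (X ^ a₀ * G)
  obtain ⟨S, hS⟩ := zero_of_map (p := p) (f := f - (X - 1) ^ c₀ * H) (by
    rw [Polynomial.map_sub, Polynomial.map_mul, Polynomial.map_pow, Polynomial.map_sub,
      Polynomial.map_X, Polynomial.map_one, hH, hfG]
    ring)
  obtain ⟨e, he⟩ := c.gen (u : E) u.2
  have hue : u = aeval w e := by
    apply RingOfIntegers.coe_injective
    have := Polynomial.aeval_algebraMap_apply E w e
    rw [hwz'] at this
    exact he.trans this
  obtain ⟨F, hF⟩ : ∃ F : Polynomial ℤ, F = H + (X - 1) ^ k * (e * S) := ⟨_, rfl⟩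
  have hfF : aeval w f = (w - 1) ^ c₀ * aeval w F := by
    have e1 : f = (X - 1) ^ c₀ * H + Polynomial.C (p : ℤ) * S := by rw [← hS]; ring
    have e2 := congrArg (aeval w) e1
    rw [map_add, map_mul, map_mul, map_pow, map_sub, aeval_X, map_one, aeval_C] at e2
    have e3 : algebraMap ℤ (𝓞 E) (p : ℤ) = (w - 1) ^ (p - 1) * aeval w e := by
      rw [← hue, ← hu]
      simp
    rw [e2, e3, hF, map_add, map_mul, map_mul, map_pow, map_sub, aeval_X, map_one]
    have e4 : p - 1 = c₀ + k := by omega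
    rw [e4, pow_add]
    ring
  have hFm : (X - 1) ^ k ∣ F.map (Int.castRingHom (ZMod p)) - X ^ a₀ * G := by
    rw [hF, Polynomial.map_add, Polynomial.map_mul, Polynomial.map_pow, Polynomial.map_sub,
      Polynomial.map_X, Polynomial.map_one, hH, add_sub_cancel_left]
    exact dvd_mul_right _ _
  have hF1 : ¬ (p : ℤ) ∣ F.eval 1 := by
    intro hd
    apply hG1
    have e1 : (F.map (Int.castRingHom (ZMod p))).eval 1 = 0 := by
      have : (F.map (Int.castRingHom (ZMod p))).eval 1 =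
          (Int.castRingHom (ZMod p)) (F.eval 1) := by
        rw [eval_map, ← map_one (Int.castRingHom (ZMod p)), eval₂_hom]
      rw [this]
      exact (ZMod.intCast_zmod_eq_zero_iff_dvd _ p).2 hd
    obtain ⟨q, hq⟩ := hFm
    have e2 := congrArg (Polynomial.eval 1) hq
    rw [eval_sub, e1, eval_mul, eval_mul, eval_pow, eval_pow, eval_sub, eval_X, eval_one, sub_self,
      zero_pow (by omega), zero_mul, one_pow, one_mul, zero_sub, neg_eq_zero] at e2
    exact e2
  have hΛ : ∀ g : Polynomial ℤ, algebraMap (𝓞 E) E (aeval w g) = aeval c.z g := by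
    intro g
    rw [← hwz']
    exact (aeval_algebraMap_apply E w g).symm
  have hF0 : aeval c.z F ≠ 0 := by
    intro h
    apply h0
    rw [← hΛ, hfF, map_mul, hΛ, h, mul_zero]
  -- the part of the value at one prime to `p`
  obtain ⟨s, n, hpn, hsn⟩ : ∃ (s : ℕ) (n : ℤ), ¬ (p : ℤ) ∣ n ∧ f.eval 1 = (p : ℤ) ^ s * n := by
    have hfin : FiniteMultiplicity (p : ℤ) (f.eval 1) := by
      rw [Int.finiteMultiplicity_iff]
      exact ⟨by simpa using hpp.ne_one, h1⟩
    obtain ⟨n, hn1, hn2⟩ := hfin.exists_eq_pow_mul_and_not_dvd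
    exact ⟨_, n, hn2, hn1⟩
  have hval : ∀ P : HeightOneSpectrum (𝓞 E), ∃ m : ℤ, P.valuation E (aeval c.z F) =
      P.valuation E ((n : ℤ) : E) * WithZero.exp ((p : ℤ) * m) := by
    intro P
    by_cases hP : ((p : ℕ) : 𝓞 E) ∈ P.asIdeal
    · refine ⟨0, ?_⟩
      have hn1 : P.valuation E ((n : ℤ) : E) = 1 := by
        have := val_one P ((n : ℤ) : 𝓞 E) (int_notMem P.asIdeal P.isPrime p hpp hP n hpn)
        simpa using this
      rw [hn1, mul_zero, WithZero.exp_zero, mul_one, ← hΛ]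
      apply val_one
      intro h3
      apply int_notMem P.asIdeal P.isPrime p hpp hP (F.eval 1) hF1
      have h4 : w - 1 ∣ aeval w F - ((F.eval 1 : ℤ) : 𝓞 E) := by
        have h5 := sub_dvd_eval_sub w 1 (F.map (algebraMap ℤ (𝓞 E)))
        rw [eval_map_algebraMap, eval_map_algebraMap] at h5
        have h6 : aeval (1 : 𝓞 E) F = ((F.eval 1 : ℤ) : 𝓞 E) := by
          have e2 := aeval_algebraMap_apply (𝓞 E) (1 : ℤ) F
          rw [map_one] at e2
          rw [e2]
          rfl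
        rwa [h6] at h5
      obtain ⟨d, hd⟩ := h4
      have h7 : ((F.eval 1 : ℤ) : 𝓞 E) = aeval w F + d * (1 - w) := by
        linear_combination -hd
      rw [h7]
      exact P.asIdeal.add_mem h3
        (P.asIdeal.mul_mem_left _ (one_sub_mem w hw.pow_eq_one P.asIdeal P.isPrime hP))
    · obtain ⟨m, hm⟩ := hv P hP
      refine ⟨m, ?_⟩
      have hw1 : w - 1 ∉ P.asIdeal := by
        intro hmem
        apply hP
        apply p_mem_of_one_sub_mem w hw P.asIdeal
        have e1 : 1 - w = -(w - 1) := by ring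
        rw [e1]
        exact P.asIdeal.neg_mem hmem
      have e1 : P.valuation E (aeval c.z f) = P.valuation E (aeval c.z F) := by
        rw [← hΛ, hfF, map_mul, hΛ, map_mul]
        have e2 : P.valuation E (algebraMap (𝓞 E) E ((w - 1) ^ c₀)) = 1 := by
          apply val_one
          intro hmem
          exact hw1 (P.isPrime.mem_of_pow_mem _ hmem)
        rw [e2, one_mul]
      have e3 : P.valuation E ((f.eval 1 : ℤ) : E) = P.valuation E ((n : ℤ) : E) := by
        rw [hsn]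
        push_cast
        rw [map_mul, map_pow]
        have e4 : P.valuation E ((p : ℕ) : E) = 1 := by
          have := val_one P ((p : ℕ) : 𝓞 E) hP
          simpa using this
        rw [e4, one_pow, one_mul]
      rw [← e1, hm, e3]
  intro a ha hap
  obtain ⟨g, hg, i, hi⟩ := relGA hU hp2 a ha hap c F n hpn hF1 hF0 hval
  obtain ⟨r, hr, hdv⟩ := hL p hp2 a ha hap E c F n hpn hF1 g hg i hi
  obtain ⟨j, hj⟩ := rel_lift k a a₀ i (by omega) (F.map (Int.castRingHom (ZMod p))) G r hFm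
    ((pow_dvd_pow _ (by omega)).trans hdv)
  exact ⟨j, r, hr, hj⟩

end

end Pool.Agent.Q279.FL
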